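import Mathlib

/-!
# Exponential sums over boxes
-/

set_option autoImplicit false

namespace Pool.Agent.Q270.LA

open Finset Complex

/-- the additive character -/
noncomputable def e (x : ℝ) : ℂ := Complex.exp (((2 * Real.pi * x : ℝ) : ℂ) * I)

theorem e_norm (x : ℝ) : ‖e x‖ = 1 := Complex.norm_exp_ofReal_mul_I _

theorem e_add (x y : ℝ) : e (x + y) = e x * e y := by
  unfold e
  rw [← Complex.exp_add]
  congr 1
  push_cast
  ring

theorem e_zero : e 0 = 1 := by
  unfold e
  simp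

theorem e_int (n : ℤ) : e n = 1 := by
  unfold e
  rw [Complex.exp_eq_one_iff]
  refine ⟨n, ?_⟩
  push_cast
  ring

theorem e_neg (x : ℝ) : e (-x) = (starRingEnd ℂ) (e x) := by
  unfold e
  rw [← Complex.exp_conj]
  congr 1
  rw [map_mul, Complex.conj_ofReal, Complex.conj_I]
  push_cast
  ring

theorem e_nat_mul (k : ℕ) (x : ℝ) : e (k * x) = e x ^ k := by
  induction k with
  | zero => simp [e_zero]
  | succ k ih =>
    rw [pow_succ, ← ih, ← e_add]
    congr 1
    push_cast
    ring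

theorem e_sum {ι : Type*} (s : Finset ι) (f : ι → ℝ) : e (∑ i ∈ s, f i) = ∏ i ∈ s, e (f i) := by
  classical
  induction s using Finset.induction_on with
  | empty => simp [e_zero]
  | insert a s ha ih => rw [Finset.sum_insert ha, Finset.prod_insert ha, e_add, ih]

theorem e_re (x : ℝ) : (e x).re = Real.cos (2 * Real.pi * x) := by
  unfold e
  rw [Complex.exp_ofReal_mul_I_re]

/-- the distance to one -/
theorem e_sub_one (x : ℝ) : 4 * |x - round x| ≤ ‖e x - 1‖ := by
  have h1 : e x = e (x - round x) := by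
    have : e x = e ((x - round x) + ((round x : ℤ) : ℝ)) := by
      congr 1
      ring
    rw [this, e_add, e_int, mul_one]
  rw [h1]
  have h2 : ‖e (x - round x) - 1‖ = 2 * |Real.sin (Real.pi * (x - round x))| := by
    unfold e
    rw [mul_comm (((2 * Real.pi * (x - round x) : ℝ) : ℂ)) I, Complex.norm_exp_I_mul_ofReal_sub_one]
    rw [Real.norm_eq_abs, abs_mul, abs_of_pos (by norm_num : (0 : ℝ) < 2)]
    congr 3
    ring
  rw [h2]
  have h3 : |x - round x| ≤ 1 / 2 := abs_sub_round x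
  have hpi := Real.pi_pos
  have h4 : |Real.pi * (x - round x)| ≤ Real.pi / 2 := by
    rw [abs_mul, abs_of_pos hpi]
    nlinarith
  have h5 := Real.mul_abs_le_abs_sin h4
  rw [abs_mul, abs_of_pos hpi] at h5
  have h6 : 2 / Real.pi * (Real.pi * |x - round x|) = 2 * |x - round x| := by
    field_simp
  rw [h6] at h5
  linarith

/-- the sum over an interval -/
noncomputable def D (H : ℕ) (x : ℝ) : ℝ := ‖∑ y ∈ Icc (-(H : ℤ)) H, e (y * x)‖

theorem D_nonneg (H : ℕ) (x : ℝ) : 0 ≤ D H x := norm_nonneg _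

theorem D_le (H : ℕ) (x : ℝ) : D H x ≤ 2 * H + 1 := by
  unfold D
  refine (norm_sum_le _ _).trans ?_
  rw [Finset.sum_congr rfl fun y _ => e_norm _, Finset.sum_const, nsmul_eq_mul, mul_one,
    Int.card_Icc]
  have : ((H : ℤ) + 1 - -(H : ℤ)).toNat = 2 * H + 1 := by omega
  rw [this]
  push_cast
  exact le_rfl

theorem D_zero (H : ℕ) : D H 0 = 2 * H + 1 := by
  unfold D
  simp only [mul_zero, e_zero, Finset.sum_const, Int.card_Icc, nsmul_eq_mul, mul_one]
  have : ((H : ℤ) + 1 - -(H : ℤ)).toNat = 2 * H + 1 := by omega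
  rw [this]
  have h2 : (((2 * H + 1 : ℕ) : ℂ)) = (((2 * H + 1 : ℝ)) : ℂ) := by push_cast; ring
  rw [h2, Complex.norm_real, Real.norm_eq_abs, abs_of_nonneg (by positivity)]

theorem D_neg (H : ℕ) (x : ℝ) : D H (-x) = D H x := by
  unfold D
  have h1 : ∑ y ∈ Icc (-(H : ℤ)) H, e (y * -x) =
      (starRingEnd ℂ) (∑ y ∈ Icc (-(H : ℤ)) H, e (y * x)) := by
    rw [map_sum]
    refine Finset.sum_congr rfl fun y _ => ?_
    rw [← e_neg]
    congr 1
    ring
  rw [h1, RCLike.norm_conj]

theorem D_geom (H : ℕ) (x : ℝ) : D H x * (2 * |x - round x|) ≤ 1 := by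
  have h1 : (∑ y ∈ Icc (-(H : ℤ)) H, e (y * x)) =
      e (-(H : ℝ) * x) * ∑ j ∈ range (2 * H + 1), e x ^ j := by
    rw [Finset.mul_sum]
    symm
    refine Finset.sum_bij (fun j _ => (j : ℤ) - H) ?_ ?_ ?_ ?_
    · intro j hj
      rw [mem_range] at hj
      rw [mem_Icc]
      omega
    · intro a _ b _ hab
      simpa using hab
    · intro y hy
      rw [mem_Icc] at hy
      refine ⟨(y + H).toNat, ?_, ?_⟩
      · rw [mem_range]
        omega
      · omega
    · intro j _
      rw [← e_nat_mul, ← e_add]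
      congr 1
      push_cast
      ring
  have h2 : (∑ y ∈ Icc (-(H : ℤ)) H, e (y * x)) * (e x - 1) =
      e (-(H : ℝ) * x) * (e x ^ (2 * H + 1) - 1) := by
    rw [h1, mul_assoc, geom_sum_mul]
  have h3 : D H x * ‖e x - 1‖ ≤ 2 := by
    unfold D
    rw [← norm_mul, h2, norm_mul, e_norm, one_mul]
    refine (norm_sub_le _ _).trans ?_
    rw [norm_pow, e_norm, one_pow, norm_one]
    norm_num
  have h4 := mul_le_mul_of_nonneg_left (e_sub_one x) (D_nonneg H x)
  linarith

/-- the sum is large near the integers -/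
theorem sum_large (K : ℕ) (x : ℝ) (hK : 1 ≤ K) (hx : |x - round x| ≤ 1 / (8 * K)) :
    (K : ℝ) / 2 ≤ ‖∑ k ∈ range K, e (k * x)‖ := by
  have hK0 : (0 : ℝ) < K := by exact_mod_cast hK
  have h1 : ∑ k ∈ range K, e (k * x) = ∑ k ∈ range K, e (k * (x - round x)) := by
    refine Finset.sum_congr rfl fun k _ => ?_
    have : e (k * x) = e (k * (x - round x) + (((k : ℤ) * round x : ℤ) : ℝ)) := by
      congr 1
      push_cast
      ring
    rw [this, e_add, e_int, mul_one]
  rw [h1]
  refine le_trans ?_ (Complex.re_le_norm _)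
  rw [Complex.re_sum]
  have h2 : ∀ k ∈ range K, (1 : ℝ) / 2 ≤ (e (k * (x - round x))).re := by
    intro k hk
    rw [mem_range] at hk
    have hkR : (k : ℝ) ≤ K := by exact_mod_cast hk.le
    rw [e_re]
    have h3 : |2 * Real.pi * (k * (x - round x))| ≤ Real.pi / 3 := by
      have hpi := Real.pi_pos
      rw [abs_mul, abs_of_pos (by positivity : (0 : ℝ) < 2 * Real.pi), abs_mul, abs_of_nonneg
        (Nat.cast_nonneg k : (0 : ℝ) ≤ k)]
      have h4 : (k : ℝ) * |x - round x| ≤ 1 / 8 := by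
        calc (k : ℝ) * |x - round x| ≤ K * (1 / (8 * K)) :=
              mul_le_mul hkR hx (abs_nonneg _) hK0.le
          _ = 1 / 8 := by field_simp
      nlinarith
    rw [← Real.cos_abs, ← Real.cos_pi_div_three]
    apply Real.cos_le_cos_of_nonneg_of_le_pi (abs_nonneg _) _ h3
    linarith [Real.pi_pos]
  calc (K : ℝ) / 2 = ∑ _k ∈ range K, (1 : ℝ) / 2 := by
        rw [Finset.sum_const, card_range, nsmul_eq_mul]
        ring
    _ ≤ _ := Finset.sum_le_sum h2

/-- sums over differences -/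
theorem diff_sum (K : ℕ) (F : ℤ → ℝ) (hF : ∀ h, 0 ≤ F h) (hev : ∀ h, F (-h) = F h) :
    ∑ k ∈ range K, ∑ l ∈ range K, F ((k : ℤ) - l) ≤
      K * (F 0 + 2 * ∑ h ∈ Ico 1 K, F h) := by
  have h1 : ∀ k ∈ range K, ∑ l ∈ range K, F ((k : ℤ) - l) ≤ F 0 + 2 * ∑ h ∈ Ico 1 K, F h := by
    intro k hk
    rw [mem_range] at hk
    have h2 : ∑ l ∈ range K, F ((k : ℤ) - l) =
        ∑ l ∈ range k, F ((k : ℤ) - l) + ∑ l ∈ Ico k K, F ((k : ℤ) - l) := by
      rw [Finset.sum_range_add_sum_Ico _ hk.le]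
    have h3 : ∑ l ∈ range k, F ((k : ℤ) - l) ≤ ∑ h ∈ Ico 1 K, F h := by
      calc ∑ l ∈ range k, F ((k : ℤ) - l) = ∑ h ∈ (range k).image (fun l => k - l), F h := by
            rw [Finset.sum_image]
            · refine Finset.sum_congr rfl fun l hl => ?_
              rw [mem_range] at hl
              congr 1
              omega
            · intro a ha b hb hab
              rw [Finset.mem_coe, mem_range] at ha hb
              simp only at hab
              omega
        _ ≤ ∑ h ∈ Ico 1 K, F h := by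
            apply Finset.sum_le_sum_of_subset_of_nonneg
            · intro h hh
              rw [mem_image] at hh
              obtain ⟨l, hl, rfl⟩ := hh
              rw [mem_range] at hl
              rw [mem_Ico]
              omega
            · intro h _ _
              exact hF _
    have h4 : ∑ l ∈ Ico k K, F ((k : ℤ) - l) ≤ F 0 + ∑ h ∈ Ico 1 K, F h := by
      rw [Finset.sum_eq_sum_Ico_succ_bot hk, sub_self]
      refine add_le_add le_rfl ?_
      calc ∑ l ∈ Ico (k + 1) K, F ((k : ℤ) - l) =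
            ∑ h ∈ (Ico (k + 1) K).image (fun l => l - k), F h := by
            rw [Finset.sum_image]
            · refine Finset.sum_congr rfl fun l hl => ?_
              rw [mem_Ico] at hl
              rw [← hev]
              congr 1
              omega
            · intro a ha b hb hab
              rw [Finset.mem_coe, mem_Ico] at ha hb
              simp only at hab
              omega
        _ ≤ ∑ h ∈ Ico 1 K, F h := by
            apply Finset.sum_le_sum_of_subset_of_nonneg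
            · intro h hh
              rw [mem_image] at hh
              obtain ⟨l, hl, rfl⟩ := hh
              rw [mem_Ico] at hl
              rw [mem_Ico]
              omega
            · intro h _ _
              exact hF _
    rw [h2]
    linarith
  refine (Finset.sum_le_sum h1).trans (le_of_eq ?_)
  rw [Finset.sum_const, card_range, nsmul_eq_mul]

/-- the box -/
noncomputable def bx (n H : ℕ) : Finset (Fin n → ℤ) := Fintype.piFinset fun _ => Icc (-(H : ℤ)) H

theorem bx_card (n H : ℕ) : ((bx n H).card : ℝ) = (2 * H + 1) ^ n := by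
  unfold bx
  rw [Fintype.card_piFinset, Finset.prod_const, Finset.card_univ, Fintype.card_fin, Int.card_Icc]
  have : ((H : ℤ) + 1 - -(H : ℤ)).toNat = 2 * H + 1 := by omega
  rw [this]
  push_cast
  rfl

/-- **the counting inequality** -/
theorem count (n H K : ℕ) (hK : 1 ≤ K) (α : Fin n → ℝ) (S : Finset (Fin n → ℤ)) (hS : S ⊆ bx n H)
    (hclose : ∀ y ∈ S, ∃ m : ℤ, |∑ i, (y i : ℝ) * α i - m| ≤ 1 / (8 * K)) :
    (S.card : ℝ) ≤ 4 / K * ((2 * H + 1) ^ n + 2 * ∑ h ∈ Ico 1 K, ∏ i, D H (h * α i)) := by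
  have hK0 : (0 : ℝ) < K := by exact_mod_cast hK
  set F : ℤ → ℝ := fun h => ∏ i, D H (h * α i) with hF
  have hF0 : ∀ h, 0 ≤ F h := fun h => Finset.prod_nonneg fun i _ => D_nonneg H _
  have hFe : ∀ h, F (-h) = F h := by
    intro h
    simp only [hF]
    refine Finset.prod_congr rfl fun i _ => ?_
    rw [← D_neg]
    congr 1
    push_cast
    ring
  -- the second moment
  have h1 : (∑ y ∈ bx n H, ‖∑ k ∈ range K, e (k * ∑ i, (y i : ℝ) * α i)‖ ^ 2 : ℝ) ≤
      ∑ k ∈ range K, ∑ l ∈ range K, F ((k : ℤ) - l) := by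
    have h2 : ∀ y : Fin n → ℤ, ((‖∑ k ∈ range K, e (k * ∑ i, (y i : ℝ) * α i)‖ ^ 2 : ℝ) : ℂ) =
        ∑ k ∈ range K, ∑ l ∈ range K, ∏ i, e ((y i : ℝ) * ((((k : ℤ) - l : ℤ) : ℝ) * α i)) := by
      intro y
      rw [Complex.ofReal_pow, ← Complex.mul_conj', map_sum, Finset.sum_mul_sum]
      refine Finset.sum_congr rfl fun k _ => Finset.sum_congr rfl fun l _ => ?_
      rw [← e_neg, ← e_add, ← e_sum]
      congr 1
      rw [Finset.mul_sum, Finset.mul_sum, ← Finset.sum_neg_distrib, ← Finset.sum_add_distrib]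
      refine Finset.sum_congr rfl fun i _ => ?_
      push_cast
      ring
    have h3 : ((∑ y ∈ bx n H, ‖∑ k ∈ range K, e (k * ∑ i, (y i : ℝ) * α i)‖ ^ 2 : ℝ) : ℂ) =
        ∑ k ∈ range K, ∑ l ∈ range K, ∏ i, ∑ z ∈ Icc (-(H : ℤ)) H,
          e ((z : ℝ) * ((((k : ℤ) - l : ℤ) : ℝ) * α i)) := by
      rw [Complex.ofReal_sum, Finset.sum_congr rfl fun y _ => h2 y, Finset.sum_comm]
      refine Finset.sum_congr rfl fun k _ => ?_
      rw [Finset.sum_comm]
      refine Finset.sum_congr rfl fun l _ => ?_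
      rw [Finset.prod_univ_sum]
      rfl
    have h4 : (0 : ℝ) ≤ ∑ y ∈ bx n H, ‖∑ k ∈ range K, e (k * ∑ i, (y i : ℝ) * α i)‖ ^ 2 :=
      Finset.sum_nonneg fun y _ => by positivity
    have h5 : (∑ y ∈ bx n H, ‖∑ k ∈ range K, e (k * ∑ i, (y i : ℝ) * α i)‖ ^ 2 : ℝ) =
        ‖((∑ y ∈ bx n H, ‖∑ k ∈ range K, e (k * ∑ i, (y i : ℝ) * α i)‖ ^ 2 : ℝ) : ℂ)‖ := by
      rw [Complex.norm_real, Real.norm_eq_abs, abs_of_nonneg h4]
    rw [h5, h3]
    refine (norm_sum_le _ _).trans (Finset.sum_le_sum fun k _ => (norm_sum_le _ _).trans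
      (Finset.sum_le_sum fun l _ => ?_))
    rw [norm_prod]
    exact le_of_eq rfl
  have h2 := h1.trans (diff_sum K F hF0 hFe)
  have h3 : (S.card : ℝ) * ((K : ℝ) / 2) ^ 2 ≤
      ∑ y ∈ bx n H, ‖∑ k ∈ range K, e (k * ∑ i, (y i : ℝ) * α i)‖ ^ 2 := by
    calc (S.card : ℝ) * ((K : ℝ) / 2) ^ 2 = ∑ _y ∈ S, ((K : ℝ) / 2) ^ 2 := by
          rw [Finset.sum_const, nsmul_eq_mul]
      _ ≤ ∑ y ∈ S, ‖∑ k ∈ range K, e (k * ∑ i, (y i : ℝ) * α i)‖ ^ 2 := by
          refine Finset.sum_le_sum fun y hy => ?_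
          obtain ⟨m, hm⟩ := hclose y hy
          have h4 := (round_le (∑ i, (y i : ℝ) * α i) m).trans hm
          exact pow_le_pow_left₀ (by positivity) (sum_large K _ hK h4) 2
      _ ≤ _ := Finset.sum_le_sum_of_subset_of_nonneg hS fun _ _ _ => by positivity
  have h4 : F 0 = (2 * H + 1) ^ n := by
    simp only [hF, Int.cast_zero, zero_mul, D_zero, Finset.prod_const, Finset.card_univ,
      Fintype.card_fin]
  have h5 := h3.trans h2
  rw [h4] at h5
  have h6 : ∀ h ∈ Ico 1 K, F ((h : ℕ) : ℤ) = ∏ i, D H (h * α i) := by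
    intro h _
    simp only [hF, Int.cast_natCast]
  rw [Finset.sum_congr rfl h6] at h5
  rw [div_mul_eq_mul_div, le_div_iff₀ hK0]
  have h7 : (S.card : ℝ) * ((K : ℝ) / 2) ^ 2 = ((S.card : ℝ) * K) * (K / 4) := by ring
  rw [h7] at h5
  have h8 : (K : ℝ) * ((2 * H + 1) ^ n + 2 * ∑ h ∈ Ico 1 K, ∏ i, D H (h * α i)) =
      (4 * ((2 * H + 1) ^ n + 2 * ∑ h ∈ Ico 1 K, ∏ i, D H (h * α i))) * (K / 4) := by ring
  rw [h8] at h5
  exact le_of_mul_le_mul_right h5 (by positivity)

end Pool.Agent.Q270.LA
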