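import Pool.Agent.Q270.LA.A

/-!
# Sums over well separated points of the torus
-/

set_option autoImplicit false

namespace Pool.Agent.Q270.LA

open Finset

/-- the majorant in a cell -/
noncomputable def hh (H M : ℕ) (j : ℕ) : ℝ := if j = 0 then 2 * H + 1 else M / (2 * j)

theorem hh_nonneg (H M j : ℕ) : 0 ≤ hh H M j := by
  unfold hh
  split_ifs <;> positivity

theorem hh_sum (H M : ℕ) (hM : 1 ≤ M) :
    ∑ j ∈ range M, (hh H M j + hh H M (M - 1 - j)) ≤ 2 * (2 * H + 1) + M * (1 + Real.log M) := by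
  have h1 : ∑ j ∈ range M, hh H M (M - 1 - j) = ∑ j ∈ range M, hh H M j :=
    Finset.sum_range_reflect _ _
  rw [Finset.sum_add_distrib, h1]
  have h2 : ∑ j ∈ range M, hh H M j = (2 * H + 1) + ∑ j ∈ Ico 1 M, hh H M j := by
    rw [Finset.range_eq_Ico, Finset.sum_eq_sum_Ico_succ_bot (by omega)]
    congr 1
  have h3 : ∑ j ∈ Ico 1 M, hh H M j ≤ M / 2 * (1 + Real.log M) := by
    have h4 : ∑ j ∈ Ico 1 M, hh H M j = M / 2 * ∑ j ∈ Ico 1 M, ((j : ℝ))⁻¹ := by
      rw [Finset.mul_sum]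
      refine Finset.sum_congr rfl fun j hj => ?_
      rw [mem_Ico] at hj
      unfold hh
      rw [if_neg (by omega)]
      have : (0 : ℝ) < j := by exact_mod_cast hj.1
      field_simp
    rw [h4]
    refine mul_le_mul_of_nonneg_left ?_ (by positivity)
    have h5 := harmonic_le_one_add_log M
    rw [harmonic_eq_sum_Icc] at h5
    push_cast at h5
    refine le_trans (Finset.sum_le_sum_of_subset_of_nonneg ?_ fun _ _ _ => by positivity) h5
    intro j hj
    rw [mem_Ico] at hj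
    rw [mem_Icc]
    omega
  rw [h2]
  linarith

theorem D_cell (H M : ℕ) (hM : 1 ≤ M) (x : ℝ) :
    D H x ≤ hh H M ⌊Int.fract x * M⌋₊ + hh H M (M - 1 - ⌊Int.fract x * M⌋₊) := by
  have hM0 : (0 : ℝ) < M := by exact_mod_cast hM
  set u := Int.fract x with hu
  have hu0 : 0 ≤ u := Int.fract_nonneg x
  have hu1 : u < 1 := Int.fract_lt_one x
  set j := ⌊u * M⌋₊ with hj
  have hj1 : (j : ℝ) ≤ u * M := Nat.floor_le (by positivity)
  have hj2 : u * M < j + 1 := Nat.lt_floor_add_one _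
  have hjM : j < M := by
    have : (j : ℝ) < M := by nlinarith
    exact_mod_cast this
  have hd := D_geom H x
  rw [abs_sub_round_eq_min] at hd
  rcases le_total u (1 - u) with h | h
  · rw [← hu, min_eq_left h] at hd
    have h1 : D H x ≤ hh H M j := by
      unfold hh
      split_ifs with h0
      · exact D_le H x
      · have hj0 : (0 : ℝ) < j := by
          have : 0 < j := by omega
          exact_mod_cast this
        rw [le_div_iff₀ (by positivity)]
        have := mul_le_mul_of_nonneg_left hj1 (D_nonneg H x)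
        nlinarith
    linarith [hh_nonneg H M (M - 1 - j)]
  · rw [← hu, min_eq_right h] at hd
    have h1 : D H x ≤ hh H M (M - 1 - j) := by
      unfold hh
      split_ifs with h0
      · exact D_le H x
      · have hj0 : (0 : ℝ) < ((M - 1 - j : ℕ) : ℝ) := by
          have : 0 < M - 1 - j := by omega
          exact_mod_cast this
        rw [le_div_iff₀ (by positivity)]
        have h2 : ((M - 1 - j : ℕ) : ℝ) ≤ (1 - u) * M := by
          have h3 : ((M - 1 - j : ℕ) : ℝ) = (M : ℝ) - 1 - j := by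
            rw [Nat.cast_sub (by omega), Nat.cast_sub hM]
            simp
          rw [h3]
          linarith
        have := mul_le_mul_of_nonneg_left h2 (D_nonneg H x)
        nlinarith
    linarith [hh_nonneg H M j]

/-- **sums over well separated points** -/
theorem cells (n H M Z : ℕ) (hM : 1 ≤ M) (ω : Fin n → ℝ)
    (hsep : ∀ z : ℕ, 1 ≤ z → z < Z → ∀ P : Fin n → ℤ, ∃ i, 1 / (M : ℝ) ≤ |(z : ℝ) * ω i - P i|) :
    ∑ z ∈ Ico 1 Z, ∏ i, D H (z * ω i) ≤ (2 * (2 * H + 1) + M * (1 + Real.log M)) ^ n := by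
  classical
  have hM0 : (0 : ℝ) < M := by exact_mod_cast hM
  set f : ℕ → ℝ := fun j => hh H M j + hh H M (M - 1 - j) with hf
  have hf0 : ∀ j, 0 ≤ f j := fun j => add_nonneg (hh_nonneg _ _ _) (hh_nonneg _ _ _)
  set φ : ℕ → Fin n → ℕ := fun z i => ⌊Int.fract ((z : ℝ) * ω i) * M⌋₊ with hφ
  have key : ∀ z z' : ℕ, 1 ≤ z' → z < Z → z' < z → φ z ≠ φ z' := by
    intro z z' hz' hz hlt heq
    obtain ⟨i, hi⟩ := hsep (z - z') (by omega) (by omega)
      (fun i => ⌊(z : ℝ) * ω i⌋ - ⌊(z' : ℝ) * ω i⌋)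
    have h1 := congrFun heq i
    simp only [hφ] at h1
    have h2 : |Int.fract ((z : ℝ) * ω i) * M - Int.fract ((z' : ℝ) * ω i) * M| < 1 := by
      have a1 := Nat.floor_le (mul_nonneg (Int.fract_nonneg ((z : ℝ) * ω i)) hM0.le)
      have a2 := Nat.lt_floor_add_one (Int.fract ((z : ℝ) * ω i) * M)
      have a3 := Nat.floor_le (mul_nonneg (Int.fract_nonneg ((z' : ℝ) * ω i)) hM0.le)
      have a4 := Nat.lt_floor_add_one (Int.fract ((z' : ℝ) * ω i) * M)
      rw [h1] at a1 a2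
      rw [abs_lt]
      constructor <;> linarith
    have h3 : ((z - z' : ℕ) : ℝ) * ω i - ((⌊(z : ℝ) * ω i⌋ - ⌊(z' : ℝ) * ω i⌋ : ℤ) : ℝ) =
        Int.fract ((z : ℝ) * ω i) - Int.fract ((z' : ℝ) * ω i) := by
      rw [Nat.cast_sub hlt.le]
      unfold Int.fract
      push_cast
      ring
    rw [h3] at hi
    rw [← sub_mul, abs_mul, abs_of_pos hM0, ← lt_div_iff₀ hM0] at h2
    linarith
  have hinj : Set.InjOn φ (Ico 1 Z : Finset ℕ) := by
    intro z hz z' hz' heq
    rw [Finset.mem_coe, mem_Ico] at hz hz'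
    by_contra hne
    rcases lt_or_gt_of_ne hne with h | h
    · exact key z' z hz.1 hz'.2 h heq.symm
    · exact key z z' hz'.1 hz.2 h heq
  calc ∑ z ∈ Ico 1 Z, ∏ i, D H (z * ω i) ≤ ∑ z ∈ Ico 1 Z, ∏ i, f (φ z i) := by
        refine Finset.sum_le_sum fun z _ => Finset.prod_le_prod (fun i _ => D_nonneg _ _)
          fun i _ => D_cell H M hM _
    _ = ∑ j ∈ (Ico 1 Z).image φ, ∏ i, f (j i) := by rw [Finset.sum_image hinj]
    _ ≤ ∑ j ∈ Fintype.piFinset (fun _ : Fin n => range M), ∏ i, f (j i) := by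
        apply Finset.sum_le_sum_of_subset_of_nonneg
        · intro j hj
          rw [mem_image] at hj
          obtain ⟨z, _, rfl⟩ := hj
          rw [Fintype.mem_piFinset]
          intro i
          rw [mem_range]
          simp only [hφ]
          have h1 := Int.fract_lt_one ((z : ℝ) * ω i)
          have h0 := Int.fract_nonneg ((z : ℝ) * ω i)
          rw [Nat.floor_lt (by positivity)]
          nlinarith
        · intro j _ _
          exact Finset.prod_nonneg fun i _ => hf0 _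
    _ = ∏ _i : Fin n, ∑ j ∈ range M, f j := (Finset.prod_univ_sum _ _).symm
    _ = (∑ j ∈ range M, f j) ^ n := by
        rw [Finset.prod_const, Finset.card_univ, Fintype.card_fin]
    _ ≤ _ := pow_le_pow_left₀ (Finset.sum_nonneg fun j _ => hf0 j) (hh_sum H M hM) n

/-- the sum over a dyadic block of multipliers -/
theorem block (n H M Dd K : ℕ) (hM : 1 ≤ M) (_hD : 1 ≤ Dd) (ω : Fin n → ℝ) (B : ℝ) (hB : 0 ≤ B)
    (hdiv : ∀ z : ℕ, 1 ≤ z → z < 2 * Dd * K → (z.divisors.card : ℝ) ≤ B)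
    (hsep : ∀ z : ℕ, 1 ≤ z → z < 2 * Dd * K → ∀ P : Fin n → ℤ,
      ∃ i, 1 / (M : ℝ) ≤ |(z : ℝ) * ω i - P i|) :
    ∑ q ∈ Ico Dd (2 * Dd), ∑ h ∈ Ico 1 K, ∏ i, D H (h * (q * ω i)) ≤
      B * (2 * (2 * H + 1) + M * (1 + Real.log M)) ^ n := by
  classical
  set G : ℕ → ℝ := fun z => ∏ i, D H (z * ω i) with hG
  have hG0 : ∀ z, 0 ≤ G z := fun z => Finset.prod_nonneg fun i _ => D_nonneg _ _
  have h1 : ∑ q ∈ Ico Dd (2 * Dd), ∑ h ∈ Ico 1 K, ∏ i, D H (h * (q * ω i)) =
      ∑ x ∈ Ico Dd (2 * Dd) ×ˢ Ico 1 K, G (x.1 * x.2) := by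
    rw [Finset.sum_product]
    refine Finset.sum_congr rfl fun q _ => Finset.sum_congr rfl fun h _ => ?_
    simp only [hG]
    refine Finset.prod_congr rfl fun i _ => ?_
    congr 1
    push_cast
    ring
  rw [h1]
  have hmaps : ∀ x ∈ Ico Dd (2 * Dd) ×ˢ Ico 1 K, x.1 * x.2 ∈ Ico 1 (2 * Dd * K) := by
    intro x hx
    rw [mem_product, mem_Ico, mem_Ico] at hx
    rw [mem_Ico]
    constructor
    · exact Nat.mul_pos (by omega) (by omega)
    · exact Nat.mul_lt_mul'' hx.1.2 hx.2.2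
  rw [← Finset.sum_fiberwise_of_maps_to hmaps]
  refine le_trans ?_ (mul_le_mul_of_nonneg_left (cells n H M (2 * Dd * K) hM ω hsep) hB)
  rw [Finset.mul_sum]
  refine Finset.sum_le_sum fun z hz => ?_
  rw [mem_Ico] at hz
  have h2 : ∑ x ∈ (Ico Dd (2 * Dd) ×ˢ Ico 1 K).filter (fun x => x.1 * x.2 = z), G (x.1 * x.2) =
      (((Ico Dd (2 * Dd) ×ˢ Ico 1 K).filter (fun x => x.1 * x.2 = z)).card : ℝ) * G z := by
    rw [Finset.sum_congr rfl (fun x hx => by rw [(mem_filter.mp hx).2]), Finset.sum_const,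
      nsmul_eq_mul]
  rw [h2]
  refine mul_le_mul_of_nonneg_right ?_ (hG0 z)
  refine le_trans ?_ (hdiv z hz.1 hz.2)
  have h3 : ((Ico Dd (2 * Dd) ×ˢ Ico 1 K).filter (fun x => x.1 * x.2 = z)).card ≤
      z.divisors.card := by
    apply Finset.card_le_card_of_injOn (fun x => x.1)
    · intro x hx
      rw [Finset.mem_coe, mem_filter] at hx
      rw [Finset.mem_coe, Nat.mem_divisors]
      exact ⟨⟨x.2, hx.2.symm⟩, by omega⟩
    · intro x hx y hy hxy
      rw [Finset.mem_coe, mem_filter, mem_product, mem_Ico] at hx hy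
      simp only at hxy
      have h4 : x.1 * x.2 = x.1 * y.2 := by rw [hx.2, hxy, hy.2]
      exact Prod.ext hxy (Nat.eq_of_mul_eq_mul_left (by omega) h4)
  exact_mod_cast h3

end Pool.Agent.Q270.LA
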