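import Pool.Agent.Q270.LA.B
import Pool.Agent.TH42.LA.E

/-!
# Few integer points with small multiples at one scale
-/

set_option autoImplicit false

namespace Pool.Agent.Q270.LA

open Finset Filter

/-- one dyadic block, with explicit parameters -/
theorem scaleA (n H M Dd K : ℕ) (hM : 1 ≤ M) (hD : 1 ≤ Dd) (hK : 1 ≤ K) (ω : Fin n → ℝ) (B : ℝ)
    (hB : 0 ≤ B)
    (hdiv : ∀ z : ℕ, 1 ≤ z → z < 2 * Dd * K → (z.divisors.card : ℝ) ≤ B)
    (hsep : ∀ z : ℕ, 1 ≤ z → z < 2 * Dd * K → ∀ P : Fin n → ℤ,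
      ∃ i, 1 / (M : ℝ) ≤ |(z : ℝ) * ω i - P i|)
    (S : Finset (Fin n → ℤ)) (hS : S ⊆ bx n H)
    (hclose : ∀ y ∈ S, ∃ q : ℕ, Dd ≤ q ∧ q < 2 * Dd ∧ ∃ m : ℤ,
      |(q : ℝ) * (∑ i, (y i : ℝ) * ω i) - m| ≤ 1 / (8 * K)) :
    (S.card : ℝ) ≤ 4 / K * (Dd * (2 * H + 1) ^ n +
      2 * (B * (2 * (2 * H + 1) + M * (1 + Real.log M)) ^ n)) := by
  classical
  have hK0 : (0 : ℝ) < K := by exact_mod_cast hK
  set Sq : ℕ → Finset (Fin n → ℤ) := fun q => S.filter (fun y => ∃ m : ℤ,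
    |∑ i, (y i : ℝ) * ((q : ℝ) * ω i) - m| ≤ 1 / (8 * K)) with hSq
  have hsub : S ⊆ (Ico Dd (2 * Dd)).biUnion Sq := by
    intro y hy
    obtain ⟨q, hq1, hq2, m, hm⟩ := hclose y hy
    rw [mem_biUnion]
    refine ⟨q, mem_Ico.mpr ⟨hq1, hq2⟩, ?_⟩
    simp only [hSq]
    rw [mem_filter]
    refine ⟨hy, m, ?_⟩
    have : ∑ i, (y i : ℝ) * ((q : ℝ) * ω i) = (q : ℝ) * (∑ i, (y i : ℝ) * ω i) := by
      rw [Finset.mul_sum]
      exact Finset.sum_congr rfl fun i _ => by ring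
    rw [this]
    exact hm
  have h1 : (S.card : ℝ) ≤ ∑ q ∈ Ico Dd (2 * Dd), ((Sq q).card : ℝ) := by
    have := (Finset.card_le_card hsub).trans Finset.card_biUnion_le
    exact_mod_cast this
  have h2 : ∀ q ∈ Ico Dd (2 * Dd), ((Sq q).card : ℝ) ≤
      4 / K * ((2 * H + 1) ^ n + 2 * ∑ h ∈ Ico 1 K, ∏ i, D H (h * (q * ω i))) := by
    intro q _
    apply count n H K hK (fun i => (q : ℝ) * ω i) (Sq q)
    · exact (Finset.filter_subset _ _).trans hS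
    · intro y hy
      simp only [hSq] at hy
      exact (mem_filter.mp hy).2
  refine h1.trans ((Finset.sum_le_sum h2).trans ?_)
  rw [← Finset.mul_sum, Finset.sum_add_distrib, ← Finset.mul_sum, Finset.sum_const, Nat.card_Ico,
    nsmul_eq_mul]
  have h3 := block n H M Dd K hM hD ω B hB hdiv hsep
  have h4 : ((2 * Dd - Dd : ℕ) : ℝ) = Dd := by
    congr 1
    omega
  rw [h4]
  refine mul_le_mul_of_nonneg_left ?_ (by positivity)
  linarith

/-- the parameters at one scale -/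
theorem scaleB (n : ℕ) (hn : 1 ≤ n) (ω : Fin n → ℝ)
    (hsim : ∀ δ : ℝ, 0 < δ → ∃ c : ℝ, 0 < c ∧ ∀ z : ℕ, 1 ≤ z → ∀ P : Fin n → ℤ, ∃ l,
      c ≤ (z : ℝ) ^ (1 / (n : ℝ) + δ) * |(z : ℝ) * ω l - P l|)
    (κ δ : ℝ) (hκ1 : 1 ≤ κ) (hδ : 0 < δ) (hδ1 : 16 * δ ≤ 1) (hδκ : 16 * δ ≤ n + 1 - κ) :
    ∃ C : ℝ, 0 < C ∧ ∀ᶠ H : ℕ in atTop, ∀ k : ℕ, (2 : ℝ) ^ k ≤ (H : ℝ) ^ (κ - 1 + δ) →
      ∀ S : Finset (Fin n → ℤ), S ⊆ bx n H →
      (∀ y ∈ S, ∃ q : ℕ, 2 ^ k ≤ q ∧ q < 2 * 2 ^ k ∧ ∃ m : ℤ,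
        |(q : ℝ) * (∑ i, (y i : ℝ) * ω i) - m| ≤ 2 * (H : ℝ) ^ (2 * δ - 1) / 2 ^ k) →
      (S.card : ℝ) ≤ C * ((H : ℝ) ^ n * (H : ℝ) ^ (-(11 * δ))) := by
  have hn0 : (0 : ℝ) < n := by exact_mod_cast hn
  have hn1 : (1 : ℝ) ≤ n := by exact_mod_cast hn
  -- small exponents
  set a : ℝ := δ / (2 * n) with ha
  have ha0 : 0 < a := by rw [ha]; positivity
  set δ' : ℝ := a / (2 * n + 1) with hδ'
  have hδ'0 : 0 < δ' := by rw [hδ']; positivity
  have hδ'1 : δ' ≤ 1 := by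
    rw [hδ', ha, div_le_one (by positivity), div_le_iff₀ (by positivity)]
    nlinarith
  set τ : ℝ := a / (2 * (2 * n + 1)) with hτ
  have hτ0 : 0 < τ := by rw [hτ]; positivity
  have hτ1 : τ ≤ 1 := by
    rw [hτ, ha, div_le_one (by positivity), div_le_iff₀ (by positivity)]
    nlinarith
  obtain ⟨c, hc, hsep⟩ := hsim δ' hδ'0
  obtain ⟨Cd, hCd0, hCd⟩ := Pool.Agent.TH42.LA.divisor_bound (δ / (2 * n + 1)) (by positivity)
  set C1 : ℝ := 1 / c + 1 with hC1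
  have hC10 : 1 ≤ C1 := by
    rw [hC1]
    have : 0 < 1 / c := by positivity
    linarith
  set C2 : ℝ := (1 + 1 / τ) * C1 with hC2
  have hC20 : 0 < C2 := by rw [hC2]; positivity
  set C3 : ℝ := C1 * C2 with hC3
  have hC30 : 0 < C3 := by rw [hC3]; positivity
  refine ⟨128 * 3 ^ n + 128 * (2 * Cd * 2 ^ (n - 1) * 6 ^ n) +
    128 * (2 * Cd * 2 ^ (n - 1) * C3 ^ n), by positivity, ?_⟩
  filter_upwards [Pool.Agent.TH42.LA.const_le_rpow (1 - 2 * δ) 32 (by linarith),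
    eventually_ge_atTop 1] with H hH1 hH2 k hk S hS hclose
  have hHR : (1 : ℝ) ≤ H := by exact_mod_cast hH2
  have hH0 : (0 : ℝ) < H := by linarith
  set T : ℝ := (H : ℝ) ^ δ with hT
  have hT1 : 1 ≤ T := Real.one_le_rpow hHR hδ.le
  have hT0 : 0 < T := by linarith
  have hT2 : (H : ℝ) ^ (2 * δ) = T ^ 2 := by
    rw [hT, ← Real.rpow_natCast, ← Real.rpow_mul hH0.le]
    congr 1
    push_cast
    ring
  have hHT : (H : ℝ) ^ (1 - 2 * δ) = H / T ^ 2 := by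
    rw [Real.rpow_sub hH0, Real.rpow_one, hT2]
  have hHT' : (H : ℝ) ^ (2 * δ - 1) = T ^ 2 / H := by
    rw [Real.rpow_sub hH0, Real.rpow_one, hT2]
  set Dd : ℕ := 2 ^ k with hDd
  have hDd1 : 1 ≤ Dd := Nat.one_le_two_pow
  have hDdR : (Dd : ℝ) = 2 ^ k := by rw [hDd]; push_cast; rfl
  have hDd1R : (1 : ℝ) ≤ Dd := by exact_mod_cast hDd1
  have hDd0 : (0 : ℝ) < Dd := by linarith
  rw [← hDdR] at hk
  rw [hHT] at hH1
  set K : ℕ := ⌊(Dd : ℝ) * (H / T ^ 2) / 16⌋₊ with hK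
  have hx2 : 2 ≤ (Dd : ℝ) * (H / T ^ 2) / 16 := by
    have : 32 ≤ (Dd : ℝ) * (H / T ^ 2) := by nlinarith
    linarith
  have hKle : (K : ℝ) ≤ (Dd : ℝ) * (H / T ^ 2) / 16 := Nat.floor_le (by linarith)
  have hKge : (Dd : ℝ) * (H / T ^ 2) / 32 ≤ K := by
    have := Nat.sub_one_lt_floor ((Dd : ℝ) * (H / T ^ 2) / 16)
    rw [← hK] at this
    linarith
  have hK1 : 1 ≤ K := Nat.le_floor (by push_cast; linarith)
  have hK0 : (0 : ℝ) < K := by exact_mod_cast hK1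
  set Z : ℝ := (Dd : ℝ) ^ 2 * H with hZ
  have hZ1 : 1 ≤ Z := by
    rw [hZ]
    have : 1 ≤ (Dd : ℝ) ^ 2 := by nlinarith
    nlinarith
  have hZ0 : 0 < Z := by linarith
  have hzZ : ∀ z : ℕ, z < 2 * Dd * K → (z : ℝ) ≤ Z := by
    intro z hz
    have h1 : (z : ℝ) ≤ 2 * Dd * K := by exact_mod_cast hz.le
    have h2 : 2 * (Dd : ℝ) * K ≤ 2 * Dd * ((Dd : ℝ) * (H / T ^ 2) / 16) :=
      mul_le_mul_of_nonneg_left hKle (by positivity)
    have h3 : (H : ℝ) / T ^ 2 ≤ H := div_le_self hH0.le (by nlinarith)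
    have h4 : 2 * (Dd : ℝ) * ((Dd : ℝ) * (H / T ^ 2) / 16) ≤ (Dd : ℝ) ^ 2 * H := by
      have h5 : 2 * (Dd : ℝ) * ((Dd : ℝ) * (H / T ^ 2) / 16) = (Dd : ℝ) ^ 2 * (H / T ^ 2) / 8 := by
        ring
      rw [h5]
      have h6 : (Dd : ℝ) ^ 2 * (H / T ^ 2) ≤ (Dd : ℝ) ^ 2 * H :=
        mul_le_mul_of_nonneg_left h3 (by positivity)
      have h7 : 0 ≤ (Dd : ℝ) ^ 2 * (H / T ^ 2) := by positivity
      linarith
    linarith
  have hZle : Z ≤ (H : ℝ) ^ (2 * n + 1 : ℝ) := by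
    have h1 : (Dd : ℝ) ^ 2 ≤ (H : ℝ) ^ (2 * (n : ℝ)) := by
      have h2 : (H : ℝ) ^ (2 * (n : ℝ)) = ((H : ℝ) ^ (n : ℝ)) ^ 2 := by
        rw [← Real.rpow_natCast, ← Real.rpow_mul hH0.le]
        congr 1
        push_cast
        ring
      rw [h2]
      refine pow_le_pow_left₀ hDd0.le (hk.trans ?_) 2
      exact Real.rpow_le_rpow_of_exponent_le hHR (by linarith)
    rw [hZ, Real.rpow_add hH0, Real.rpow_one]
    exact mul_le_mul_of_nonneg_right h1 hH0.le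
  have hZpow : ∀ s : ℝ, 0 ≤ s → Z ^ s ≤ (H : ℝ) ^ ((2 * n + 1 : ℝ) * s) := by
    intro s hs
    rw [Real.rpow_mul hH0.le]
    exact Real.rpow_le_rpow hZ0.le hZle hs
  set P : ℝ := (H : ℝ) ^ a with hP
  have hP1 : 1 ≤ P := Real.one_le_rpow hHR ha0.le
  have hP0 : 0 < P := by linarith
  have hPT : (P ^ 2) ^ n = T := by
    rw [← pow_mul, hP, hT, ← Real.rpow_natCast, ← Real.rpow_mul hH0.le]
    congr 1
    rw [ha]
    push_cast
    field_simp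
  -- the number of divisors
  have hdiv : ∀ z : ℕ, 1 ≤ z → z < 2 * Dd * K → (z.divisors.card : ℝ) ≤ Cd * T := by
    intro z hz1 hz2
    refine (hCd z (by omega)).trans (mul_le_mul_of_nonneg_left ?_ hCd0.le)
    have h1 : (z : ℝ) ^ (δ / (2 * (n : ℝ) + 1)) ≤ Z ^ (δ / (2 * (n : ℝ) + 1)) :=
      Real.rpow_le_rpow (Nat.cast_nonneg z) (hzZ z hz2) (by positivity)
    refine h1.trans ((hZpow _ (by positivity)).trans (le_of_eq ?_))
    rw [hT]
    congr 1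
    field_simp
  -- the separation
  set M : ℕ := ⌈Z ^ (1 / (n : ℝ) + δ') / c⌉₊ with hM
  have hZp0 : 0 < Z ^ (1 / (n : ℝ) + δ') := by positivity
  have hZp1 : 1 ≤ Z ^ (1 / (n : ℝ) + δ') := Real.one_le_rpow hZ1 (by positivity)
  have hMge : Z ^ (1 / (n : ℝ) + δ') / c ≤ M := Nat.le_ceil _
  have hM0 : (0 : ℝ) < M := lt_of_lt_of_le (by positivity) hMge
  have hM1 : 1 ≤ M := by exact_mod_cast hM0
  have hM1R : (1 : ℝ) ≤ M := by exact_mod_cast hM1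
  have hMle : (M : ℝ) ≤ C1 * Z ^ (1 / (n : ℝ) + δ') := by
    have h1 := Nat.ceil_lt_add_one (by positivity : 0 ≤ Z ^ (1 / (n : ℝ) + δ') / c)
    rw [← hM] at h1
    rw [hC1, add_mul, one_mul, one_div_mul_eq_div]
    linarith
  have hsep' : ∀ z : ℕ, 1 ≤ z → z < 2 * Dd * K → ∀ Pz : Fin n → ℤ,
      ∃ i, 1 / (M : ℝ) ≤ |(z : ℝ) * ω i - Pz i| := by
    intro z hz1 hz2 Pz
    obtain ⟨l, hl⟩ := hsep z hz1 Pz
    refine ⟨l, ?_⟩
    have h1 : (z : ℝ) ^ (1 / (n : ℝ) + δ') ≤ Z ^ (1 / (n : ℝ) + δ') :=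
      Real.rpow_le_rpow (Nat.cast_nonneg z) (hzZ z hz2) (by positivity)
    have h2 := hl.trans (mul_le_mul_of_nonneg_right h1 (abs_nonneg _))
    rw [div_le_iff₀ hM0]
    have h3 : 1 ≤ Z ^ (1 / (n : ℝ) + δ') / c * |(z : ℝ) * ω l - Pz l| := by
      rw [div_mul_eq_mul_div, le_div_iff₀ hc, one_mul]
      exact h2
    rw [mul_comm]
    exact h3.trans (mul_le_mul_of_nonneg_right hMge (abs_nonneg _))
  -- the size of the separation
  have hMP : (M : ℝ) ≤ C1 * (Z ^ (1 / (n : ℝ)) * P) := by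
    refine hMle.trans (mul_le_mul_of_nonneg_left ?_ (by linarith))
    rw [Real.rpow_add hZ0]
    refine mul_le_mul_of_nonneg_left ((hZpow _ hδ'0.le).trans (le_of_eq ?_)) (by positivity)
    rw [hP]
    congr 1
    rw [hδ']
    field_simp
  have hlogM : 1 + Real.log M ≤ C2 * P := by
    have h1 : Real.log M ≤ (M : ℝ) ^ τ / τ := Real.log_le_rpow_div hM0.le hτ0
    have h2 : 1 ≤ (M : ℝ) ^ τ := Real.one_le_rpow hM1R hτ0.le
    have h3 : 1 + Real.log M ≤ (1 + 1 / τ) * (M : ℝ) ^ τ := by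
      rw [add_mul, one_mul, one_div_mul_eq_div]
      linarith
    have h4 : (M : ℝ) ^ τ ≤ C1 * P := by
      calc (M : ℝ) ^ τ ≤ (C1 * Z ^ (1 / (n : ℝ) + δ')) ^ τ :=
            Real.rpow_le_rpow hM0.le hMle hτ0.le
        _ = C1 ^ τ * (Z ^ (1 / (n : ℝ) + δ')) ^ τ :=
            Real.mul_rpow (by linarith) hZp0.le
        _ ≤ C1 * P := by
            refine mul_le_mul ?_ ?_ (by positivity) (by linarith)
            · calc C1 ^ τ ≤ C1 ^ (1 : ℝ) := Real.rpow_le_rpow_of_exponent_le hC10 hτ1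
                _ = C1 := Real.rpow_one _
            · rw [← Real.rpow_mul hZ0.le]
              refine (hZpow _ (by positivity)).trans ?_
              rw [hP]
              apply Real.rpow_le_rpow_of_exponent_le hHR
              have h5 : 1 / (n : ℝ) + δ' ≤ 2 := by
                have : 1 / (n : ℝ) ≤ 1 := by
                  rw [div_le_one hn0]
                  exact hn1
                linarith
              calc (2 * (n : ℝ) + 1) * ((1 / (n : ℝ) + δ') * τ)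
                  ≤ (2 * (n : ℝ) + 1) * (2 * τ) := by
                    refine mul_le_mul_of_nonneg_left ?_ (by positivity)
                    exact mul_le_mul_of_nonneg_right h5 hτ0.le
                _ = a := by
                    rw [hτ]
                    field_simp
    calc 1 + Real.log M ≤ (1 + 1 / τ) * (M : ℝ) ^ τ := h3
      _ ≤ (1 + 1 / τ) * (C1 * P) := mul_le_mul_of_nonneg_left h4 (by positivity)
      _ = C2 * P := by rw [hC2]; ring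
  have hMM : ((M : ℝ) * (1 + Real.log M)) ^ n ≤ C3 ^ n * (Z * T) := by
    have hlog0 : 0 ≤ Real.log M := Real.log_nonneg hM1R
    have h1 : (M : ℝ) * (1 + Real.log M) ≤ C3 * (Z ^ (1 / (n : ℝ)) * P ^ 2) := by
      calc (M : ℝ) * (1 + Real.log M) ≤ (C1 * (Z ^ (1 / (n : ℝ)) * P)) * (C2 * P) :=
            mul_le_mul hMP hlogM (by linarith) (by positivity)
        _ = C3 * (Z ^ (1 / (n : ℝ)) * P ^ 2) := by rw [hC3]; ring
    calc ((M : ℝ) * (1 + Real.log M)) ^ n ≤ (C3 * (Z ^ (1 / (n : ℝ)) * P ^ 2)) ^ n :=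
          pow_le_pow_left₀ (mul_nonneg hM0.le (by linarith)) h1 n
      _ = C3 ^ n * (Z * T) := by
          have h2 : (Z ^ (1 / (n : ℝ))) ^ n = Z := by
            rw [one_div]
            exact Real.rpow_inv_natCast_pow hZ0.le (by omega)
          rw [mul_pow C3, mul_pow (Z ^ (1 / (n : ℝ))), hPT, h2]
  have hmain := scaleA n H M Dd K hM1 hDd1 hK1 ω (Cd * T) (by positivity) hdiv hsep' S hS (by
    intro y hy
    obtain ⟨q, hq1, hq2, m, hm⟩ := hclose y hy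
    refine ⟨q, hq1, hq2, m, hm.trans ?_⟩
    rw [hHT', ← hDdR, div_le_div_iff₀ hDd0 (by positivity)]
    have h1 : 2 * (T ^ 2 / H) * (8 * (K : ℝ)) ≤
        2 * (T ^ 2 / H) * (8 * ((Dd : ℝ) * (H / T ^ 2) / 16)) := by
      refine mul_le_mul_of_nonneg_left ?_ (by positivity)
      linarith
    refine h1.trans (le_of_eq ?_)
    field_simp
    norm_num)
  -- assembling
  have h3H : (2 * (H : ℝ) + 1) ^ n ≤ 3 ^ n * (H : ℝ) ^ n := by
    rw [← mul_pow]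
    exact pow_le_pow_left₀ (by positivity) (by linarith) n
  have h6H : (2 * (2 * (H : ℝ) + 1)) ^ n ≤ 6 ^ n * (H : ℝ) ^ n := by
    rw [← mul_pow]
    exact pow_le_pow_left₀ (by positivity) (by linarith) n
  have hsum : (2 * (2 * (H : ℝ) + 1) + M * (1 + Real.log M)) ^ n ≤
      2 ^ (n - 1) * (6 ^ n * (H : ℝ) ^ n + C3 ^ n * (Z * T)) := by
    have hlog0 : 0 ≤ Real.log M := Real.log_nonneg hM1R
    refine (add_pow_le (by positivity) (by positivity) n).trans ?_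
    exact mul_le_mul_of_nonneg_left (add_le_add h6H hMM) (by positivity)
  have h4K : 4 / (K : ℝ) ≤ 128 * T ^ 2 / (Dd * H) := by
    rw [div_le_div_iff₀ hK0 (by positivity)]
    have h1 : (Dd : ℝ) * (H / T ^ 2) ≤ 32 * K := by linarith
    have h2 : (Dd : ℝ) * (H / T ^ 2) * T ^ 2 ≤ 32 * K * T ^ 2 :=
      mul_le_mul_of_nonneg_right h1 (by positivity)
    have h3 : (Dd : ℝ) * (H / T ^ 2) * T ^ 2 = Dd * H := by field_simp
    rw [h3] at h2
    linarith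
  have hN0 : (0 : ℝ) < (H : ℝ) ^ n := by positivity
  have hneg : (H : ℝ) ^ (-(11 * δ)) * T ^ 11 = 1 := by
    rw [hT, ← Real.rpow_natCast, ← Real.rpow_mul hH0.le, ← Real.rpow_add hH0]
    rw [show -(11 * δ) + δ * ((11 : ℕ) : ℝ) = 0 by push_cast; ring, Real.rpow_zero]
  set R : ℝ := (H : ℝ) ^ (-(11 * δ)) with hR
  have hR0 : 0 < R := by rw [hR]; positivity
  have hT14 : T ^ 14 ≤ H := by
    rw [hT, ← Real.rpow_natCast, ← Real.rpow_mul hH0.le]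
    calc (H : ℝ) ^ (δ * ((14 : ℕ) : ℝ)) ≤ (H : ℝ) ^ (1 : ℝ) :=
          Real.rpow_le_rpow_of_exponent_le hHR (by push_cast; linarith)
      _ = H := Real.rpow_one _
  have hT3R : T ^ 3 ≤ R * H := by
    calc T ^ 3 = R * T ^ 11 * T ^ 3 := by rw [hneg, one_mul]
      _ = R * T ^ 14 := by ring
      _ ≤ R * H := mul_le_mul_of_nonneg_left hT14 hR0.le
  have hDdR' : (Dd : ℝ) * T ^ 4 ≤ (H : ℝ) ^ n * R := by
    have h1 : (Dd : ℝ) * T ^ 15 ≤ (H : ℝ) ^ n := by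
      calc (Dd : ℝ) * T ^ 15 ≤ (H : ℝ) ^ (κ - 1 + δ) * T ^ 15 :=
            mul_le_mul_of_nonneg_right hk (by positivity)
        _ = (H : ℝ) ^ (κ - 1 + δ + δ * ((15 : ℕ) : ℝ)) := by
            rw [hT, ← Real.rpow_natCast, ← Real.rpow_mul hH0.le, ← Real.rpow_add hH0]
        _ ≤ (H : ℝ) ^ (n : ℝ) := Real.rpow_le_rpow_of_exponent_le hHR (by push_cast; linarith)
        _ = (H : ℝ) ^ n := Real.rpow_natCast _ _
    calc (Dd : ℝ) * T ^ 4 = (Dd : ℝ) * T ^ 4 * (R * T ^ 11) := by rw [hneg, mul_one]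
      _ = R * ((Dd : ℝ) * T ^ 15) := by ring
      _ ≤ R * (H : ℝ) ^ n := mul_le_mul_of_nonneg_left h1 hR0.le
      _ = _ := mul_comm _ _
  have hT23 : T ^ 2 ≤ T ^ 3 := pow_le_pow_right₀ hT1 (by norm_num)
  have hA : 128 * T ^ 2 / (Dd * H) * (Dd * (3 ^ n * (H : ℝ) ^ n)) ≤
      128 * 3 ^ n * ((H : ℝ) ^ n * R) := by
    have h1 : 128 * T ^ 2 / (Dd * H) * (Dd * (3 ^ n * (H : ℝ) ^ n)) =
        128 * 3 ^ n * (H : ℝ) ^ n * (T ^ 2 / H) := by
      field_simp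
    rw [h1]
    have h2 : T ^ 2 / H ≤ R := by
      rw [div_le_iff₀ hH0]
      linarith
    calc 128 * 3 ^ n * (H : ℝ) ^ n * (T ^ 2 / H) ≤ 128 * 3 ^ n * (H : ℝ) ^ n * R :=
          mul_le_mul_of_nonneg_left h2 (by positivity)
      _ = _ := by ring
  have hBb : 128 * T ^ 2 / (Dd * H) * (2 * (Cd * T * (2 ^ (n - 1) * (6 ^ n * (H : ℝ) ^ n)))) ≤
      128 * (2 * Cd * 2 ^ (n - 1) * 6 ^ n) * ((H : ℝ) ^ n * R) := by
    have h1 : 128 * T ^ 2 / (Dd * H) * (2 * (Cd * T * (2 ^ (n - 1) * (6 ^ n * (H : ℝ) ^ n)))) =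
        128 * (2 * Cd * 2 ^ (n - 1) * 6 ^ n) * (H : ℝ) ^ n * (T ^ 3 / H / Dd) := by
      field_simp
    rw [h1]
    have h2 : T ^ 3 / H / Dd ≤ R := by
      rw [div_div, div_le_iff₀ (by positivity)]
      have : R * H ≤ R * (H * Dd) := by
        refine mul_le_mul_of_nonneg_left ?_ hR0.le
        exact le_mul_of_one_le_right hH0.le hDd1R
      linarith
    calc 128 * (2 * Cd * 2 ^ (n - 1) * 6 ^ n) * (H : ℝ) ^ n * (T ^ 3 / H / Dd) ≤
          128 * (2 * Cd * 2 ^ (n - 1) * 6 ^ n) * (H : ℝ) ^ n * R :=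
          mul_le_mul_of_nonneg_left h2 (by positivity)
      _ = _ := by ring
  have hCc : 128 * T ^ 2 / (Dd * H) * (2 * (Cd * T * (2 ^ (n - 1) * (C3 ^ n * (Z * T))))) ≤
      128 * (2 * Cd * 2 ^ (n - 1) * C3 ^ n) * ((H : ℝ) ^ n * R) := by
    have h1 : 128 * T ^ 2 / (Dd * H) * (2 * (Cd * T * (2 ^ (n - 1) * (C3 ^ n * (Z * T))))) =
        128 * (2 * Cd * 2 ^ (n - 1) * C3 ^ n) * ((Dd : ℝ) * T ^ 4) := by
      rw [hZ]
      field_simp
    rw [h1]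
    exact mul_le_mul_of_nonneg_left hDdR' (by positivity)
  have hin : (Dd : ℝ) * (2 * H + 1) ^ n +
      2 * (Cd * T * (2 * (2 * H + 1) + M * (1 + Real.log M)) ^ n) ≤
      Dd * (3 ^ n * (H : ℝ) ^ n) + 2 * (Cd * T * (2 ^ (n - 1) * (6 ^ n * (H : ℝ) ^ n))) +
        2 * (Cd * T * (2 ^ (n - 1) * (C3 ^ n * (Z * T)))) := by
    have h1 := mul_le_mul_of_nonneg_left h3H hDd0.le
    have h2 := mul_le_mul_of_nonneg_left hsum (by positivity : 0 ≤ 2 * (Cd * T))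
    calc (Dd : ℝ) * (2 * H + 1) ^ n + 2 * (Cd * T * (2 * (2 * H + 1) +
          M * (1 + Real.log M)) ^ n) ≤ Dd * (3 ^ n * (H : ℝ) ^ n) +
          2 * (Cd * T) * (2 ^ (n - 1) * (6 ^ n * (H : ℝ) ^ n + C3 ^ n * (Z * T))) := by
          refine add_le_add h1 ?_
          rw [← mul_assoc]
          exact h2
      _ = _ := by ring
  have hlog0 : 0 ≤ Real.log M := Real.log_nonneg hM1R
  refine hmain.trans ((mul_le_mul h4K hin (by positivity) (by positivity)).trans ?_)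
  rw [mul_add, mul_add, add_mul, add_mul]
  exact add_le_add (add_le_add hA hBb) hCc

end Pool.Agent.Q270.LA
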