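import Pool.Agent.Q270.LA.C

/-!
# Few integer points with small multiples
-/

set_option autoImplicit false

namespace Pool.Agent.Q270.LA

open Finset Filter

/-- the exceptional condition -/
def Exc {n : ℕ} (ω : Fin n → ℝ) (κ δ : ℝ) (H : ℕ) (y : Fin n → ℤ) : Prop :=
  ∃ k : ℕ, (2 : ℝ) ^ k ≤ (H : ℝ) ^ (κ - 1 + δ) ∧ ∃ q : ℕ, 2 ^ k ≤ q ∧ q < 2 * 2 ^ k ∧ ∃ m : ℤ,
    |(q : ℝ) * (∑ i, (y i : ℝ) * ω i) - m| ≤ 2 * (H : ℝ) ^ (2 * δ - 1) / 2 ^ k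

/-- **few exceptional points** -/
theorem fewE (n : ℕ) (hn : 1 ≤ n) (ω : Fin n → ℝ)
    (hsim : ∀ δ : ℝ, 0 < δ → ∃ c : ℝ, 0 < c ∧ ∀ z : ℕ, 1 ≤ z → ∀ P : Fin n → ℤ, ∃ l,
      c ≤ (z : ℝ) ^ (1 / (n : ℝ) + δ) * |(z : ℝ) * ω l - P l|)
    (κ δ : ℝ) (hκ1 : 1 ≤ κ) (hδ : 0 < δ) (hδ1 : 16 * δ ≤ 1) (hδκ : 16 * δ ≤ n + 1 - κ)
    (η : ℝ) (hη : 0 < η) :
    ∀ᶠ H : ℕ in atTop, ∀ S : Finset (Fin n → ℤ), S ⊆ bx n H → (∀ y ∈ S, Exc ω κ δ H y) →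
      (S.card : ℝ) ≤ η * (H : ℝ) ^ n := by
  classical
  obtain ⟨C, hC, hsc⟩ := scaleB n hn ω hsim κ δ hκ1 hδ hδ1 hδκ
  have hn0 : (0 : ℝ) < n := by exact_mod_cast hn
  have hlog2 : 0 < Real.log 2 := Real.log_pos (by norm_num)
  set C' : ℝ := (n / (δ * Real.log 2) + 1) * C with hC'
  have hC'0 : 0 < C' := by rw [hC']; positivity
  filter_upwards [hsc, eventually_ge_atTop 1,
    Pool.Agent.TH42.LA.const_le_rpow (10 * δ) (C' / η) (by positivity)] with H hH hH1 hHC S hS hSE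
  have hHR : (1 : ℝ) ≤ H := by exact_mod_cast hH1
  have hH0 : (0 : ℝ) < H := by linarith
  set J : ℕ := Nat.log 2 (H ^ n) with hJ
  have hHn0 : H ^ n ≠ 0 := pow_ne_zero _ (by omega)
  have h2J : (2 : ℝ) ^ J ≤ (H : ℝ) ^ n := by
    exact_mod_cast Nat.pow_log_le_self 2 hHn0
  have hJle : (J : ℝ) * Real.log 2 ≤ n * Real.log H := by
    rw [← Real.log_pow, ← Real.log_pow]
    exact Real.log_le_log (by positivity) h2J
  have hlogH : Real.log H ≤ (H : ℝ) ^ δ / δ := Real.log_le_rpow_div hH0.le hδ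
  have hT1 : 1 ≤ (H : ℝ) ^ δ := Real.one_le_rpow hHR hδ.le
  have hJ1 : (J : ℝ) + 1 ≤ (n / (δ * Real.log 2) + 1) * (H : ℝ) ^ δ := by
    have h1 : (J : ℝ) ≤ n / (δ * Real.log 2) * (H : ℝ) ^ δ := by
      rw [div_mul_eq_mul_div, le_div_iff₀ (by positivity)]
      have h2 : (n : ℝ) * Real.log H ≤ n * ((H : ℝ) ^ δ / δ) :=
        mul_le_mul_of_nonneg_left hlogH hn0.le
      have h3 := mul_le_mul_of_nonneg_right (hJle.trans h2) hδ.le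
      have h4 : (n : ℝ) * ((H : ℝ) ^ δ / δ) * δ = n * (H : ℝ) ^ δ := by field_simp
      rw [h4] at h3
      linarith
    rw [add_mul, one_mul]
    linarith
  set Sk : ℕ → Finset (Fin n → ℤ) := fun k => S.filter (fun y =>
    (2 : ℝ) ^ k ≤ (H : ℝ) ^ (κ - 1 + δ) ∧ ∃ q : ℕ, 2 ^ k ≤ q ∧ q < 2 * 2 ^ k ∧ ∃ m : ℤ,
    |(q : ℝ) * (∑ i, (y i : ℝ) * ω i) - m| ≤ 2 * (H : ℝ) ^ (2 * δ - 1) / 2 ^ k) with hSk
  have hsub : S ⊆ (range (J + 1)).biUnion Sk := by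
    intro y hy
    obtain ⟨k, hk, hk2⟩ := hSE y hy
    rw [mem_biUnion]
    refine ⟨k, ?_, mem_filter.mpr ⟨hy, hk, hk2⟩⟩
    rw [mem_range, Nat.lt_succ_iff]
    have h1 : (2 : ℝ) ^ k ≤ (H : ℝ) ^ n := by
      refine hk.trans ?_
      rw [← Real.rpow_natCast]
      exact Real.rpow_le_rpow_of_exponent_le hHR (by linarith)
    have h2 : 2 ^ k ≤ H ^ n := by exact_mod_cast h1
    rw [hJ]
    exact Nat.le_log_of_pow_le (by norm_num) h2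
  have hcard : ∀ k ∈ range (J + 1), ((Sk k).card : ℝ) ≤
      C * ((H : ℝ) ^ n * (H : ℝ) ^ (-(11 * δ))) := by
    intro k _
    rcases (Sk k).eq_empty_or_nonempty with h0 | ⟨y0, hy0⟩
    · rw [h0, Finset.card_empty, Nat.cast_zero]
      positivity
    · have hk := (mem_filter.mp hy0).2.1
      refine hH k hk (Sk k) ((Finset.filter_subset _ _).trans hS) fun y hy => ?_
      exact (mem_filter.mp hy).2.2
  have h1 : (S.card : ℝ) ≤ ∑ k ∈ range (J + 1), ((Sk k).card : ℝ) := by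
    have := (Finset.card_le_card hsub).trans Finset.card_biUnion_le
    exact_mod_cast this
  have h2 := h1.trans (Finset.sum_le_sum hcard)
  rw [Finset.sum_const, card_range, nsmul_eq_mul] at h2
  have h3 : ((J + 1 : ℕ) : ℝ) * (C * ((H : ℝ) ^ n * (H : ℝ) ^ (-(11 * δ)))) ≤
      ((n / (δ * Real.log 2) + 1) * (H : ℝ) ^ δ) * (C * ((H : ℝ) ^ n * (H : ℝ) ^ (-(11 * δ)))) := by
    refine mul_le_mul_of_nonneg_right ?_ (by positivity)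
    push_cast
    exact hJ1
  have h4 : ((n / (δ * Real.log 2) + 1) * (H : ℝ) ^ δ) *
      (C * ((H : ℝ) ^ n * (H : ℝ) ^ (-(11 * δ)))) =
      C' * (H : ℝ) ^ n * ((H : ℝ) ^ δ * (H : ℝ) ^ (-(11 * δ))) := by
    rw [hC']
    ring
  have h5 : (H : ℝ) ^ δ * (H : ℝ) ^ (-(11 * δ)) = ((H : ℝ) ^ (10 * δ))⁻¹ := by
    rw [← Real.rpow_add hH0, ← Real.rpow_neg hH0.le]
    congr 1
    ring
  have h6 : C' * ((H : ℝ) ^ (10 * δ))⁻¹ ≤ η := by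
    rw [← div_eq_mul_inv, div_le_iff₀ (by positivity)]
    rw [div_le_iff₀ hη] at hHC
    linarith
  calc (S.card : ℝ) ≤ C' * (H : ℝ) ^ n * ((H : ℝ) ^ (10 * δ))⁻¹ := by
        rw [← h5, ← h4]
        exact h2.trans h3
    _ = C' * ((H : ℝ) ^ (10 * δ))⁻¹ * (H : ℝ) ^ n := by ring
    _ ≤ η * (H : ℝ) ^ n := mul_le_mul_of_nonneg_right h6 (by positivity)

end Pool.Agent.Q270.LA
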