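import Pool.Agent.Q270.LA.E
import Pool.Agent.TH42.LD.A

/-!
# Few exceptional multiples of one number
-/

set_option autoImplicit false

namespace Pool.Agent.Q270.LA

open Finset Filter

/-- **few exceptional multiples of one number** -/
theorem fewE1 (ω : Fin 1 → ℝ)
    (hroth : ∀ τ : ℝ, 0 < τ → ∃ c : ℝ, 0 < c ∧ ∀ q : ℕ, 1 ≤ q → ∀ p : ℤ,
      c ≤ (q : ℝ) ^ (1 + τ) * |q * ω 0 - p|)
    (κ δ : ℝ) (hκ1 : 1 ≤ κ) (hδ : 0 < δ) (hδ1 : 16 * δ ≤ 1) (η : ℝ) (hη : 0 < η) :
    ∀ᶠ H : ℕ in atTop, ∀ S : Finset (Fin 1 → ℤ), S ⊆ bx 1 H → (∀ y ∈ S, Exc ω κ δ H y) →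
      (S.card : ℝ) ≤ η * (H : ℝ) ^ 1 := by
  classical
  have hlog2 : 0 < Real.log 2 := Real.log_pos (by norm_num)
  set τ : ℝ := δ / (κ + 1) with hτ
  have hτ0 : 0 < τ := by rw [hτ]; positivity
  have hτ1 : τ ≤ 1 := by
    rw [hτ, div_le_one (by positivity)]
    linarith
  obtain ⟨c0, hc0, hr⟩ := hroth τ hτ0
  obtain ⟨C, hC, hcount⟩ := Pool.Agent.TH42.LD.alg_count (ω 0) τ c0 hτ0 hc0 hr
  obtain ⟨Cd, hCd0, hCd⟩ := Pool.Agent.TH42.LA.divisor_bound τ hτ0
  set CJ : ℝ := (κ + 1) / (δ * Real.log 2) + 2 with hCJ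
  have hCJ0 : 0 < CJ := by rw [hCJ]; positivity
  set C' : ℝ := 1 + CJ * ((64 + 4 * C) * (2 * (Cd * 4))) with hC'
  have hC'0 : 0 < C' := by rw [hC']; positivity
  filter_upwards [eventually_ge_atTop 2,
    Pool.Agent.TH42.LA.const_le_rpow (1 - 4 * δ) (C' / η) (by linarith)] with H hH2 hHC S hS hSE
  have hH1 : 1 ≤ H := by omega
  have hHR : (1 : ℝ) ≤ H := by exact_mod_cast hH1
  have hHR2 : (2 : ℝ) ≤ H := by exact_mod_cast hH2
  have hH0 : (0 : ℝ) < H := by linarith
  set T : ℝ := (H : ℝ) ^ δ with hT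
  have hT1 : 1 ≤ T := Real.one_le_rpow hHR hδ.le
  have hT0 : 0 < T := by linarith
  have hT2 : (H : ℝ) ^ (2 * δ) = T ^ 2 := by
    rw [hT, ← Real.rpow_natCast, ← Real.rpow_mul hH0.le]
    congr 1
    push_cast
    ring
  have hHT' : (H : ℝ) ^ (2 * δ - 1) = T ^ 2 / H := by
    rw [Real.rpow_sub hH0, Real.rpow_one, hT2]
  -- the size of the multiples
  set Y : ℝ := 2 * (H : ℝ) ^ (κ + 1) with hY
  have hY0 : 0 < Y := by rw [hY]; positivity
  have hYτ : Y ^ τ ≤ 2 * T := by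
    rw [hY, Real.mul_rpow (by norm_num) (by positivity), ← Real.rpow_mul hH0.le]
    refine mul_le_mul ?_ (le_of_eq ?_) (by positivity) (by norm_num)
    · calc (2 : ℝ) ^ τ ≤ 2 ^ (1 : ℝ) := Real.rpow_le_rpow_of_exponent_le (by norm_num) hτ1
        _ = 2 := Real.rpow_one _
    · rw [hT]
      congr 1
      rw [hτ]
      field_simp
  set J : ℕ := Nat.log 2 ⌊Y⌋₊ with hJ
  have hY1 : 1 ≤ Y := by
    rw [hY]
    have : 1 ≤ (H : ℝ) ^ (κ + 1) := Real.one_le_rpow hHR (by linarith)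
    linarith
  have hfl : ⌊Y⌋₊ ≠ 0 := by
    have h2 : 1 ≤ ⌊Y⌋₊ := Nat.le_floor (by simpa using hY1)
    omega
  have h2J : (2 : ℝ) ^ J ≤ Y := by
    have h1 : 2 ^ J ≤ ⌊Y⌋₊ := Nat.pow_log_le_self 2 hfl
    have h2 : ((2 ^ J : ℕ) : ℝ) ≤ (⌊Y⌋₊ : ℝ) := by exact_mod_cast h1
    push_cast at h2
    exact h2.trans (Nat.floor_le hY0.le)
  have hJ1 : (J : ℝ) + 1 ≤ CJ * T := by
    have h1 : (J : ℝ) * Real.log 2 ≤ Real.log 2 + (κ + 1) * Real.log H := by
      rw [← Real.log_pow, ← Real.log_rpow hH0, ← Real.log_mul (by norm_num) (by positivity)]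
      exact Real.log_le_log (by positivity) h2J
    have h2 : Real.log H ≤ T / δ := Real.log_le_rpow_div hH0.le hδ
    have h3 : (κ + 1) * Real.log H ≤ (κ + 1) * (T / δ) :=
      mul_le_mul_of_nonneg_left h2 (by linarith)
    have h4 : (J : ℝ) ≤ 1 + (κ + 1) / (δ * Real.log 2) * T := by
      have h5 : (J : ℝ) ≤ (Real.log 2 + (κ + 1) * (T / δ)) / Real.log 2 := by
        rw [le_div_iff₀ hlog2]
        linarith
      refine h5.trans (le_of_eq ?_)
      field_simp
    rw [hCJ]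
    nlinarith
  -- the sets of multiples
  set W : ℕ → ℤ := fun j => ⌈2 * (2 : ℝ) ^ j * |ω 0| + 4 * T ^ 2 / 2 ^ j⌉ with hW
  set Zs : ℕ → Finset (ℕ × ℤ) := fun j => ((Icc (2 ^ j) (2 * 2 ^ j)) ×ˢ Icc (-(W j)) (W j)).filter
    (fun z => z.1 ∈ Icc 1 ⌊Y⌋₊ ∧ |(z.1 : ℝ) * ω 0 - z.2| ≤ 4 * T ^ 2 / 2 ^ j) with hZs
  have hZcard : ∀ j ∈ range (J + 1), ((Zs j).card : ℝ) ≤ (64 + 4 * C) * T ^ 2 := by
    intro j hj
    rw [mem_range, Nat.lt_succ_iff] at hj
    have h2j : (0 : ℝ) < 2 ^ j := by positivity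
    have h1 := hcount (2 * 2 ^ j) (by have := Nat.one_le_two_pow (n := j); omega) (4 * T ^ 2 / 2 ^ j) (by positivity) (Zs j) (by
      intro z hz
      simp only [hZs] at hz
      rw [mem_filter, mem_product, mem_Icc] at hz
      exact ⟨hz.1.1.2, hz.2.2⟩)
    refine h1.trans ?_
    push_cast
    have h2 : 8 * (2 * (2 : ℝ) ^ j) * (4 * T ^ 2 / 2 ^ j) = 64 * T ^ 2 := by
      field_simp
      norm_num
    have h3 : (2 * (2 : ℝ) ^ j) ^ τ ≤ 4 * T := by
      have h4 : (2 : ℝ) ^ j ≤ Y := (pow_le_pow_right₀ (by norm_num) hj).trans h2J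
      calc (2 * (2 : ℝ) ^ j) ^ τ = 2 ^ τ * ((2 : ℝ) ^ j) ^ τ :=
            Real.mul_rpow (by norm_num) h2j.le
        _ ≤ 2 * (2 * T) := by
            refine mul_le_mul ?_ ((Real.rpow_le_rpow h2j.le h4 hτ0.le).trans hYτ)
              (by positivity) (by norm_num)
            calc (2 : ℝ) ^ τ ≤ 2 ^ (1 : ℝ) := Real.rpow_le_rpow_of_exponent_le (by norm_num) hτ1
              _ = 2 := Real.rpow_one _
        _ = 4 * T := by ring
    have h5 : T ≤ T ^ 2 := by nlinarith
    have h6 : C * (2 * (2 : ℝ) ^ j) ^ τ ≤ C * (4 * T ^ 2) :=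
      mul_le_mul_of_nonneg_left (by linarith) hC.le
    rw [h2]
    linarith
  -- the covering
  set G : ℕ → Finset (Fin 1 → ℤ) := fun z =>
    (z.divisors.image (fun d : ℕ => (fun _ : Fin 1 => (d : ℤ)))) ∪
    (z.divisors.image (fun d : ℕ => (fun _ : Fin 1 => -(d : ℤ)))) with hG
  have hsub : S ⊆ {fun _ => (0 : ℤ)} ∪ (range (J + 1)).biUnion (fun j => (Zs j).biUnion
      (fun z => G z.1)) := by
    intro y hy
    rw [mem_union, mem_singleton]
    by_cases h0 : y 0 = 0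
    · left
      ext i
      have : i = 0 := Subsingleton.elim _ _
      rw [this]
      exact h0
    · right
      have hyH := (Fintype.mem_piFinset.mp (hS hy)) 0
      rw [mem_Icc] at hyH
      obtain ⟨k, hk, q, hq1, hq2, m, hm⟩ := hSE y hy
      rw [Fin.sum_univ_one] at hm
      have h2k : (0 : ℝ) < 2 ^ k := by positivity
      set v : ℕ := (y 0).natAbs with hv
      have hv1 : 1 ≤ v := Int.natAbs_pos.mpr h0
      have hvH : v ≤ H := by omega
      set z : ℕ := q * v with hz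
      have hq0 : 1 ≤ q := le_trans Nat.one_le_two_pow hq1
      have hz1 : 1 ≤ z := Nat.mul_pos hq0 hv1
      have hzR : (1 : ℝ) ≤ z := by exact_mod_cast hz1
      have hvHR : (v : ℝ) ≤ H := by exact_mod_cast hvH
      have hq2R : (q : ℝ) ≤ 2 * 2 ^ k := by exact_mod_cast hq2.le
      have hzle : (z : ℝ) ≤ 2 * 2 ^ k * H := by
        rw [hz]
        push_cast
        exact mul_le_mul hq2R hvHR (Nat.cast_nonneg v) (by positivity)
      have hzY : (z : ℝ) ≤ Y := by
        refine hzle.trans ?_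
        rw [hY]
        have h1 : (H : ℝ) ^ (κ - 1 + δ) ≤ (H : ℝ) ^ κ :=
          Real.rpow_le_rpow_of_exponent_le hHR (by linarith)
        have h2 : (H : ℝ) ^ (κ + 1) = (H : ℝ) ^ κ * H := by
          rw [Real.rpow_add hH0, Real.rpow_one]
        rw [h2]
        have h3 : (2 : ℝ) ^ k * H ≤ (H : ℝ) ^ κ * H :=
          mul_le_mul_of_nonneg_right (hk.trans h1) hH0.le
        linarith
      -- the value at the multiple
      obtain ⟨m', hm'⟩ : ∃ m' : ℤ, |(z : ℝ) * ω 0 - m'| ≤ 4 * T ^ 2 / z := by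
        have hb : 2 * (H : ℝ) ^ (2 * δ - 1) / 2 ^ k ≤ 4 * T ^ 2 / z := by
          rw [hHT', div_le_div_iff₀ h2k (by positivity)]
          have h1 : 2 * (T ^ 2 / H) * (z : ℝ) ≤ 2 * (T ^ 2 / H) * (2 * 2 ^ k * H) :=
            mul_le_mul_of_nonneg_left hzle (by positivity)
          refine h1.trans (le_of_eq ?_)
          field_simp
          norm_num
        rcases le_total 0 (y 0) with hs | hs
        · refine ⟨m, le_trans (le_of_eq ?_) (hm.trans hb)⟩
          have h1 : ((v : ℕ) : ℤ) = y 0 := by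
            rw [hv]
            exact Int.natAbs_of_nonneg hs
          have h2 : (v : ℝ) = ((y 0 : ℤ) : ℝ) := by
            have : (((v : ℕ) : ℤ) : ℝ) = ((y 0 : ℤ) : ℝ) := by rw [h1]
            simpa using this
          rw [hz]
          push_cast
          rw [h2, mul_assoc]
        · refine ⟨-m, le_trans (le_of_eq ?_) (hm.trans hb)⟩
          have h1 : ((v : ℕ) : ℤ) = -y 0 := by
            rw [hv]
            exact Int.ofNat_natAbs_of_nonpos hs
          have h2 : (v : ℝ) = -((y 0 : ℤ) : ℝ) := by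
            have : (((v : ℕ) : ℤ) : ℝ) = ((-y 0 : ℤ) : ℝ) := by rw [h1]
            push_cast at this
            exact this
          rw [hz]
          push_cast
          rw [h2, ← abs_neg]
          congr 1
          ring
      set j : ℕ := Nat.log 2 z with hj
      have hj1 : 2 ^ j ≤ z := Nat.pow_log_le_self 2 (by omega)
      have hj2 : z ≤ 2 * 2 ^ j := by
        have := Nat.lt_pow_succ_log_self (b := 2) (by norm_num) z
        rw [pow_succ, ← hj] at this
        omega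
      have h2j : (0 : ℝ) < 2 ^ j := by positivity
      have hj1R : (2 : ℝ) ^ j ≤ z := by exact_mod_cast hj1
      have hj2R : (z : ℝ) ≤ 2 * 2 ^ j := by exact_mod_cast hj2
      have hm2 : |(z : ℝ) * ω 0 - m'| ≤ 4 * T ^ 2 / 2 ^ j :=
        hm'.trans (div_le_div_of_nonneg_left (by positivity) h2j hj1R)
      have hzfl : z ≤ ⌊Y⌋₊ := Nat.le_floor hzY
      rw [mem_biUnion]
      refine ⟨j, ?_, ?_⟩
      · rw [mem_range, Nat.lt_succ_iff, hJ]
        exact Nat.log_mono_right hzfl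
      · rw [mem_biUnion]
        refine ⟨(z, m'), ?_, ?_⟩
        · simp only [hZs]
          rw [mem_filter, mem_product, mem_Icc, mem_Icc, mem_Icc]
          refine ⟨⟨⟨hj1, hj2⟩, ?_⟩, ⟨hz1, hzfl⟩, hm2⟩
          have h1 : |(m' : ℝ)| ≤ 2 * (2 : ℝ) ^ j * |ω 0| + 4 * T ^ 2 / 2 ^ j := by
            have h2 : (m' : ℝ) = z * ω 0 - (z * ω 0 - m') := by ring
            rw [h2]
            refine (abs_sub _ _).trans ?_
            rw [abs_mul, Nat.abs_cast]
            exact add_le_add (mul_le_mul_of_nonneg_right hj2R (abs_nonneg _)) hm2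
          have h2 : |m'| ≤ W j := by
            have h3 : (|m'| : ℝ) ≤ ((W j : ℤ) : ℝ) := h1.trans (Int.le_ceil _)
            exact_mod_cast h3
          exact abs_le.mp h2
        · simp only [hG]
          rw [mem_union, mem_image, mem_image]
          have hvd : v ∈ z.divisors := Nat.mem_divisors.mpr ⟨⟨q, by rw [hz, mul_comm]⟩, by omega⟩
          rcases le_total 0 (y 0) with hs | hs
          · left
            refine ⟨v, hvd, ?_⟩
            ext i
            have : i = 0 := Subsingleton.elim _ _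
            rw [this, hv]
            exact Int.natAbs_of_nonneg hs
          · right
            refine ⟨v, hvd, ?_⟩
            ext i
            have : i = 0 := Subsingleton.elim _ _
            rw [this, hv, Int.ofNat_natAbs_of_nonpos hs, neg_neg]
  have hGcard : ∀ j ∈ range (J + 1), ∀ z ∈ Zs j, ((G z.1).card : ℝ) ≤ 2 * (Cd * (2 * T)) := by
    intro j _ z hz
    simp only [hZs] at hz
    rw [mem_filter, mem_Icc] at hz
    obtain ⟨_, ⟨hz1, hz2⟩, _⟩ := hz
    have h1 : (G z.1).card ≤ 2 * z.1.divisors.card := by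
      simp only [hG]
      refine (Finset.card_union_le _ _).trans ?_
      have := Finset.card_image_le (s := z.1.divisors) (f := fun d : ℕ => (fun _ : Fin 1 => (d : ℤ)))
      have := Finset.card_image_le (s := z.1.divisors) (f := fun d : ℕ => (fun _ : Fin 1 => -(d : ℤ)))
      omega
    have h2 := hCd z.1 (by omega)
    have h3 : (z.1 : ℝ) ^ τ ≤ 2 * T := by
      refine (Real.rpow_le_rpow (Nat.cast_nonneg _) ?_ hτ0.le).trans hYτ
      have : (z.1 : ℝ) ≤ (⌊Y⌋₊ : ℝ) := by exact_mod_cast hz2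
      exact this.trans (Nat.floor_le hY0.le)
    have h4 : ((G z.1).card : ℝ) ≤ 2 * (z.1.divisors.card : ℝ) := by exact_mod_cast h1
    have h5 : Cd * (z.1 : ℝ) ^ τ ≤ Cd * (2 * T) := mul_le_mul_of_nonneg_left h3 hCd0.le
    linarith
  have hcard : (S.card : ℝ) ≤ 1 + ∑ j ∈ range (J + 1), ∑ z ∈ Zs j, ((G z.1).card : ℝ) := by
    have h1 : S.card ≤ 1 + ∑ j ∈ range (J + 1), ∑ z ∈ Zs j, (G z.1).card := by
      refine (Finset.card_le_card hsub).trans ((Finset.card_union_le _ _).trans ?_)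
      rw [Finset.card_singleton]
      refine Nat.add_le_add_left ?_ 1
      refine Finset.card_biUnion_le.trans (Finset.sum_le_sum fun j _ => Finset.card_biUnion_le)
    exact_mod_cast h1
  have hsum : ∑ j ∈ range (J + 1), ∑ z ∈ Zs j, ((G z.1).card : ℝ) ≤
      (CJ * T) * (((64 + 4 * C) * T ^ 2) * (2 * (Cd * (2 * T)))) := by
    calc ∑ j ∈ range (J + 1), ∑ z ∈ Zs j, ((G z.1).card : ℝ) ≤
          ∑ _j ∈ range (J + 1), ((64 + 4 * C) * T ^ 2) * (2 * (Cd * (2 * T))) := by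
          refine Finset.sum_le_sum fun j hj => ?_
          refine (Finset.sum_le_sum (hGcard j hj)).trans ?_
          rw [Finset.sum_const, nsmul_eq_mul]
          exact mul_le_mul_of_nonneg_right (hZcard j hj) (by positivity)
      _ = ((J : ℝ) + 1) * (((64 + 4 * C) * T ^ 2) * (2 * (Cd * (2 * T)))) := by
          rw [Finset.sum_const, card_range, nsmul_eq_mul]
          push_cast
          ring
      _ ≤ _ := mul_le_mul_of_nonneg_right hJ1 (by positivity)
  have hT4 : 1 ≤ T ^ 4 := one_le_pow₀ hT1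
  have hfin : (S.card : ℝ) ≤ C' * T ^ 4 := by
    have h1 : (CJ * T) * (((64 + 4 * C) * T ^ 2) * (2 * (Cd * (2 * T)))) ≤
        CJ * ((64 + 4 * C) * (2 * (Cd * 4))) * T ^ 4 := by
      have h2 : (CJ * T) * (((64 + 4 * C) * T ^ 2) * (2 * (Cd * (2 * T)))) =
          CJ * ((64 + 4 * C) * (2 * (Cd * 2))) * T ^ 4 := by ring
      rw [h2]
      refine mul_le_mul_of_nonneg_right ?_ (by positivity)
      refine mul_le_mul_of_nonneg_left ?_ hCJ0.le
      refine mul_le_mul_of_nonneg_left ?_ (by positivity)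
      linarith
    have h3 : C' * T ^ 4 = T ^ 4 + CJ * ((64 + 4 * C) * (2 * (Cd * 4))) * T ^ 4 := by
      rw [hC']
      ring
    rw [h3]
    linarith
  refine hfin.trans ?_
  rw [pow_one]
  have h1 : T ^ 4 = (H : ℝ) ^ (4 * δ) := by
    rw [hT, ← Real.rpow_natCast, ← Real.rpow_mul hH0.le]
    congr 1
    push_cast
    ring
  rw [div_le_iff₀ hη] at hHC
  have h2 : (H : ℝ) = (H : ℝ) ^ (1 - 4 * δ) * (H : ℝ) ^ (4 * δ) := by
    rw [← Real.rpow_add hH0]
    rw [show 1 - 4 * δ + 4 * δ = 1 by ring, Real.rpow_one]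
  calc C' * T ^ 4 ≤ ((H : ℝ) ^ (1 - 4 * δ) * η) * T ^ 4 :=
        mul_le_mul_of_nonneg_right hHC (by positivity)
    _ = η * ((H : ℝ) ^ (1 - 4 * δ) * (H : ℝ) ^ (4 * δ)) := by
        rw [h1]
        ring
    _ = η * H := by rw [← h2]

end Pool.Agent.Q270.LA
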