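import Pool.Agent.Results.MP_c307ca_nt.AlmostAllToHeight

/-!
# Primitive pairs with small values of a linear form; the reduction to primitive pairs
-/

set_option autoImplicit false

namespace Pool.Agent.Q270.LA

open Finset

/-- equal fractions in lowest terms -/
theorem prim_eq (q q' : ℕ) (m m' : ℤ) (h1 : IsCoprime (q : ℤ) m) (h2 : IsCoprime (q' : ℤ) m')
    (hq : 0 < q) (_hq' : 0 < q') (h : m * q' = m' * q) : (q, m) = (q', m') := by
  have a1 : (q : ℤ) ∣ q' := by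
    have : (q : ℤ) ∣ m * q' := ⟨m', by rw [h]; ring⟩
    exact h1.dvd_of_dvd_mul_left this
  have a2 : (q' : ℤ) ∣ q := by
    have : (q' : ℤ) ∣ m' * q := ⟨m, by rw [← h]; ring⟩
    exact h2.dvd_of_dvd_mul_left this
  have a3 : q = q' := Nat.dvd_antisymm (by exact_mod_cast a1) (by exact_mod_cast a2)
  subst a3
  have a4 : m = m' := by
    have : (q : ℤ) ≠ 0 := by
      have : q ≠ 0 := by omega
      exact_mod_cast this
    exact mul_right_cancel₀ this h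
  rw [a4]

/-- the count of primitive pairs -/
theorem prim (θ X : ℝ) (hX : 0 ≤ X) (k : ℕ) (S : Finset (ℕ × ℤ))
    (hS : ∀ z ∈ S, 2 ^ k ≤ z.1 ∧ z.1 < 2 * 2 ^ k ∧ IsCoprime (z.1 : ℤ) z.2 ∧
      |(z.1 : ℝ) * θ - z.2| ≤ X / 2 ^ k) : (S.card : ℝ) ≤ 8 * X + 2 := by
  classical
  set ψ : ℕ × ℤ → ℤ := fun z => ⌊4 * (2 : ℝ) ^ k * 2 ^ k * ((z.2 : ℝ) / z.1 - θ)⌋ with hψ
  have h2k : (0 : ℝ) < 2 ^ k := by positivity
  have hinj : Set.InjOn ψ (S : Set (ℕ × ℤ)) := by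
    intro z hz z' hz' heq
    obtain ⟨a1, a2, a3, _⟩ := hS z hz
    obtain ⟨b1, b2, b3, _⟩ := hS z' hz'
    have hz0 : 0 < z.1 := lt_of_lt_of_le (by positivity) a1
    have hz0' : 0 < z'.1 := lt_of_lt_of_le (by positivity) b1
    have hzR : (0 : ℝ) < z.1 := by exact_mod_cast hz0
    have hzR' : (0 : ℝ) < z'.1 := by exact_mod_cast hz0'
    have h3 := Int.abs_sub_lt_one_of_floor_eq_floor heq
    have h4 : 4 * (2 : ℝ) ^ k * 2 ^ k * ((z.2 : ℝ) / z.1 - θ) -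
        4 * (2 : ℝ) ^ k * 2 ^ k * ((z'.2 : ℝ) / z'.1 - θ) =
        (4 * (2 : ℝ) ^ k * 2 ^ k) * (((z.2 * z'.1 - z'.2 * z.1 : ℤ) : ℝ) / (z.1 * z'.1)) := by
      push_cast
      field_simp
      ring
    rw [h4, abs_mul, abs_of_pos (by positivity), abs_div,
      abs_of_pos (mul_pos hzR hzR'), mul_div_assoc', div_lt_one (by positivity)] at h3
    by_cases h5 : z.2 * z'.1 - z'.2 * z.1 = 0
    · exact prim_eq z.1 z'.1 z.2 z'.2 a3 b3 hz0 hz0' (by linarith)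
    · exfalso
      have h6 : (1 : ℝ) ≤ |((z.2 * z'.1 - z'.2 * z.1 : ℤ) : ℝ)| := by
        exact_mod_cast Int.one_le_abs h5
      have h7 : (z.1 : ℝ) ≤ 2 * 2 ^ k := by exact_mod_cast a2.le
      have h8 : (z'.1 : ℝ) ≤ 2 * 2 ^ k := by exact_mod_cast b2.le
      have h9 : (z.1 : ℝ) * z'.1 ≤ (2 * 2 ^ k) * (2 * 2 ^ k) :=
        mul_le_mul h7 h8 hzR'.le (by positivity)
      have h10 : 4 * (2 : ℝ) ^ k * 2 ^ k * 1 ≤
          4 * (2 : ℝ) ^ k * 2 ^ k * |((z.2 * z'.1 - z'.2 * z.1 : ℤ) : ℝ)| :=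
        mul_le_mul_of_nonneg_left h6 (by positivity)
      linarith
  have hmaps : ∀ z ∈ S, ψ z ∈ Icc ⌊-(4 * X)⌋ ⌊4 * X⌋ := by
    intro z hz
    obtain ⟨a1, a2, a3, a4⟩ := hS z hz
    have hz0 : 0 < z.1 := lt_of_lt_of_le (by positivity) a1
    have hzR : (0 : ℝ) < z.1 := by exact_mod_cast hz0
    have a1R : (2 : ℝ) ^ k ≤ z.1 := by exact_mod_cast a1
    have h1 : |4 * (2 : ℝ) ^ k * 2 ^ k * ((z.2 : ℝ) / z.1 - θ)| ≤ 4 * X := by
      have h2 : 4 * (2 : ℝ) ^ k * 2 ^ k * ((z.2 : ℝ) / z.1 - θ) =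
          4 * (2 : ℝ) ^ k * 2 ^ k / z.1 * (-((z.1 : ℝ) * θ - z.2)) := by
        field_simp
        ring
      rw [h2, abs_mul, abs_neg, abs_of_pos (by positivity)]
      calc 4 * (2 : ℝ) ^ k * 2 ^ k / z.1 * |(z.1 : ℝ) * θ - z.2| ≤
            4 * (2 : ℝ) ^ k * 2 ^ k / 2 ^ k * (X / 2 ^ k) := by
            refine mul_le_mul ?_ a4 (abs_nonneg _) (by positivity)
            exact div_le_div_of_nonneg_left (by positivity) h2k a1R
        _ = 4 * X := by field_simp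
    rw [abs_le] at h1
    rw [mem_Icc]
    exact ⟨Int.floor_le_floor h1.1, Int.floor_le_floor h1.2⟩
  have hcard := Finset.card_le_card_of_injOn ψ hmaps hinj
  rw [Int.card_Icc] at hcard
  have h3 : ⌊-(4 * X)⌋ ≤ ⌊4 * X⌋ := Int.floor_le_floor (by linarith)
  have h4 : (((⌊4 * X⌋ + 1 - ⌊-(4 * X)⌋).toNat : ℕ) : ℝ) = (⌊4 * X⌋ : ℝ) + 1 - ⌊-(4 * X)⌋ := by
    have h5 : (((⌊4 * X⌋ + 1 - ⌊-(4 * X)⌋).toNat : ℕ) : ℤ) = ⌊4 * X⌋ + 1 - ⌊-(4 * X)⌋ :=
      Int.toNat_of_nonneg (by omega)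
    exact_mod_cast h5
  have h5 := Int.floor_le (4 * X)
  have h6 := Int.lt_floor_add_one (-(4 * X))
  have h7 : (S.card : ℝ) ≤ (((⌊4 * X⌋ + 1 - ⌊-(4 * X)⌋).toNat : ℕ) : ℝ) := by exact_mod_cast hcard
  rw [h4] at h7
  linarith

/-- the solutions of one congruence in an interval -/
theorem residues (H b q : ℕ) (hb : 1 ≤ b) (hbH : b ≤ H) (m : ℤ) (hcop : IsCoprime (q : ℤ) b) :
    (((Icc (-(H : ℤ)) H).filter (fun a => (b : ℤ) ∣ (q : ℤ) * a + m)).card : ℝ) ≤ 4 * H / b := by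
  classical
  rcases ((Icc (-(H : ℤ)) H).filter (fun a => (b : ℤ) ∣ (q : ℤ) * a + m)).eq_empty_or_nonempty with
    h0 | ⟨v, hv⟩
  · rw [h0, Finset.card_empty, Nat.cast_zero]
    positivity
  · have h1 := Pool.Agent.Results.MP_c307ca_nt.AlmostAllToHeight.card_residue (H : ℤ) (b : ℤ)
      (by exact_mod_cast hb) (by exact_mod_cast hbH) v
    push_cast at h1
    refine le_trans ?_ h1
    have hsub : (Icc (-(H : ℤ)) H).filter (fun a => (b : ℤ) ∣ (q : ℤ) * a + m) ⊆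
        (Icc (-(H : ℤ)) H).filter (fun x => x ≡ v [ZMOD b]) := by
      intro a ha
      rw [mem_filter] at ha hv ⊢
      refine ⟨ha.1, ?_⟩
      have h2 : (b : ℤ) ∣ (q : ℤ) * (v - a) := by
        have := dvd_sub hv.2 ha.2
        have h3 : (q : ℤ) * v + m - ((q : ℤ) * a + m) = q * (v - a) := by ring
        rwa [h3] at this
      exact Int.modEq_iff_dvd.mpr (hcop.symm.dvd_of_dvd_mul_left h2)
    exact_mod_cast Finset.card_le_card hsub

/-- **the reduction to primitive pairs** -/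
theorem cover (θ c ε Q : ℝ) (hc : 0 < c) (hε : 0 < ε) (a : ℤ) (b : ℕ) (hb : 1 ≤ b)
    (hbad : ∃ (p : ℤ) (q : ℕ), 2 ≤ q ∧ (q : ℝ) ≤ Q ∧
      |((a : ℝ) + θ) / b - (p : ℝ) / q| ≤ c / ((q : ℝ) ^ 2 * Real.log q ^ (1 + ε))) :
    ∃ g b' k q' : ℕ, ∃ m : ℤ, g * b' = b ∧ 2 ^ k ≤ q' ∧ q' < 2 * 2 ^ k ∧ (g : ℝ) * q' ≤ Q ∧
      IsCoprime (q' : ℤ) b' ∧ IsCoprime (q' : ℤ) m ∧ (b' : ℤ) ∣ (q' : ℤ) * a + m ∧
      |(q' : ℝ) * θ - m| ≤ c * (2 / Real.log 2) ^ (1 + ε) * b' / (g * ((k : ℝ) + 1) ^ (1 + ε)) /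
        2 ^ k := by
  obtain ⟨p, q, hq2, hqQ, hle⟩ := hbad
  have hlog2 : 0 < Real.log 2 := Real.log_pos (by norm_num)
  have hq0 : 0 < q := by omega
  have hqR : (0 : ℝ) < q := by exact_mod_cast hq0
  have hbR : (0 : ℝ) < b := by exact_mod_cast hb
  set c1 : ℝ := c * (2 / Real.log 2) ^ (1 + ε) with hc1
  have hc10 : 0 < c1 := by rw [hc1]; positivity
  -- lowest terms
  set d : ℕ := Int.gcd (q : ℤ) p with hd
  have hd0 : 0 < d := Int.gcd_pos_of_ne_zero_left _ (by exact_mod_cast hq0.ne')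
  obtain ⟨q0, hq0e⟩ : (d : ℤ) ∣ (q : ℤ) := Int.gcd_dvd_left _ _
  obtain ⟨p0, hp0e⟩ : (d : ℤ) ∣ p := Int.gcd_dvd_right _ _
  have hdR : (0 : ℝ) < d := by exact_mod_cast hd0
  have hq0pos : 0 < q0 := by
    by_contra h
    push Not at h
    have h1 : (d : ℤ) * q0 ≤ 0 := mul_nonpos_of_nonneg_of_nonpos (by positivity) h
    have h2 : (0 : ℤ) < q := by exact_mod_cast hq0
    omega
  have hcop0 : IsCoprime q0 p0 := by
    have h1 := Int.gcd_eq_gcd_ab (q : ℤ) p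
    rw [← hd] at h1
    refine ⟨Int.gcdA q p, Int.gcdB q p, ?_⟩
    have h2 : (d : ℤ) * (Int.gcdA q p * q0 + Int.gcdB q p * p0) = d * 1 := by
      rw [mul_one]
      calc (d : ℤ) * (Int.gcdA q p * q0 + Int.gcdB q p * p0) =
            ((d : ℤ) * q0) * Int.gcdA q p + (d * p0) * Int.gcdB q p := by ring
        _ = (q : ℤ) * Int.gcdA q p + p * Int.gcdB q p := by rw [← hq0e, ← hp0e]
        _ = d := h1.symm
    exact mul_left_cancel₀ (by exact_mod_cast hd0.ne') h2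
  obtain ⟨r, hr⟩ : ∃ r : ℕ, (r : ℤ) = q0 := ⟨q0.toNat, Int.toNat_of_nonneg hq0pos.le⟩
  rw [← hr] at hq0e hq0pos hcop0
  have hr0 : 0 < r := by exact_mod_cast hq0pos
  have hrR : (0 : ℝ) < r := by exact_mod_cast hr0
  have hqdr : q = d * r := by exact_mod_cast hq0e
  have hrq : r ≤ q := by
    rw [hqdr]
    exact Nat.le_mul_of_pos_left r hd0
  have hrqR : (r : ℝ) ≤ q := by exact_mod_cast hrq
  have hfrac : (p : ℝ) / q = (p0 : ℝ) / r := by
    have e1 : (p : ℝ) = d * p0 := by exact_mod_cast hp0e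
    have e2 : (q : ℝ) = d * r := by exact_mod_cast hqdr
    rw [e1, e2]
    field_simp
  -- the common divisor with b
  set g : ℕ := Nat.gcd r b with hg
  have hg0 : 0 < g := Nat.gcd_pos_of_pos_left b hr0
  have hgR : (0 : ℝ) < g := by exact_mod_cast hg0
  have hgr : g ∣ r := Nat.gcd_dvd_left r b
  have hgb : g ∣ b := Nat.gcd_dvd_right r b
  set q1 : ℕ := r / g with hq1def
  set b1 : ℕ := b / g with hb1def
  have hqe : g * q1 = r := Nat.mul_div_cancel' hgr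
  have hbe : g * b1 = b := Nat.mul_div_cancel' hgb
  have hqe' : (g : ℝ) * q1 = r := by exact_mod_cast hqe
  have hbe' : (g : ℝ) * b1 = b := by exact_mod_cast hbe
  have hq1pos : 1 ≤ q1 := Nat.div_pos (Nat.le_of_dvd hr0 hgr) hg0
  have hb1pos : 1 ≤ b1 := Nat.div_pos (Nat.le_of_dvd (by omega) hgb) hg0
  have hq1R : (0 : ℝ) < q1 := by exact_mod_cast hq1pos
  have hb1R : (0 : ℝ) < b1 := by exact_mod_cast hb1pos
  have hcop1 : IsCoprime (q1 : ℤ) (b1 : ℤ) :=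
    Nat.isCoprime_iff_coprime.mpr (Nat.coprime_div_gcd_div_gcd hg0)
  set m : ℤ := p0 * b1 - q1 * a with hm
  have hcop2 : IsCoprime (q1 : ℤ) m := by
    have h1 : IsCoprime (q1 : ℤ) p0 :=
      IsCoprime.of_isCoprime_of_dvd_left hcop0 ⟨(g : ℤ), by rw [← hqe]; push_cast; ring⟩
    have h2 : IsCoprime (q1 : ℤ) (p0 * b1) := IsCoprime.mul_right h1 hcop1
    have h3 : m = p0 * b1 + (-a) * q1 := by rw [hm]; ring
    rw [h3]
    exact (IsCoprime.add_mul_right_right_iff).mpr h2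
  set k : ℕ := Nat.log 2 q1 with hk
  have hk1 : 2 ^ k ≤ q1 := Nat.pow_log_le_self 2 (by omega)
  have hk2 : q1 < 2 * 2 ^ k := by
    have := Nat.lt_pow_succ_log_self (b := 2) (by norm_num) q1
    rw [pow_succ] at this
    rw [mul_comm]
    exact this
  refine ⟨g, b1, k, q1, m, hbe, hk1, hk2, ?_, hcop1, hcop2, ⟨p0, by rw [hm]; ring⟩, ?_⟩
  · rw [hqe']
    linarith
  · have hval : (r : ℝ) * b1 * (((a : ℝ) + θ) / b - (p : ℝ) / q) = q1 * θ - m := by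
      rw [hfrac, hm, ← hqe', ← hbe']
      push_cast
      field_simp
      ring
    have hsm : |(q1 : ℝ) * θ - m| = r * b1 * |((a : ℝ) + θ) / b - (p : ℝ) / q| := by
      rw [← hval, abs_mul, abs_of_pos (mul_pos hrR hb1R)]
    rw [hsm]
    -- the size of the logarithm
    have hk0 : (0 : ℝ) < (k : ℝ) + 1 := by positivity
    have hlog : (((k : ℝ) + 1) * (Real.log 2 / 2)) ^ (1 + ε) ≤ Real.log q ^ (1 + ε) := by
      apply Real.rpow_le_rpow (by positivity) _ (by linarith)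
      have h1 : ((Nat.log 2 q : ℕ) : ℝ) * Real.log 2 ≤ Real.log q := by
        rw [← Real.log_pow]
        apply Real.log_le_log (by positivity)
        exact_mod_cast Nat.pow_log_le_self 2 hq0.ne'
      have h2 : 1 ≤ Nat.log 2 q := Nat.log_pos (by norm_num) hq2
      have h3 : k ≤ Nat.log 2 q := by
        rw [hk]
        apply Nat.log_mono_right
        exact (Nat.div_le_self r g).trans hrq
      have h2R : (1 : ℝ) ≤ (Nat.log 2 q : ℕ) := by exact_mod_cast h2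
      have h3R : (k : ℝ) ≤ (Nat.log 2 q : ℕ) := by exact_mod_cast h3
      nlinarith
    have hpw : (((k : ℝ) + 1) * (Real.log 2 / 2)) ^ (1 + ε) =
        ((k : ℝ) + 1) ^ (1 + ε) * (Real.log 2 / 2) ^ (1 + ε) :=
      Real.mul_rpow hk0.le (by positivity)
    have hinv : (2 / Real.log 2) ^ (1 + ε) * (Real.log 2 / 2) ^ (1 + ε) = 1 := by
      rw [← Real.mul_rpow (by positivity) (by positivity)]
      rw [show 2 / Real.log 2 * (Real.log 2 / 2) = 1 by field_simp, Real.one_rpow]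
    have hK0 : 0 < ((k : ℝ) + 1) ^ (1 + ε) := by positivity
    have hL0 : 0 < (Real.log 2 / 2) ^ (1 + ε) := by positivity
    have hlogq : 0 < Real.log q ^ (1 + ε) := by
      have : 0 < (((k : ℝ) + 1) * (Real.log 2 / 2)) ^ (1 + ε) := by positivity
      linarith
    have h1 : c / ((q : ℝ) ^ 2 * Real.log q ^ (1 + ε)) ≤ c1 / ((r : ℝ) ^ 2 * ((k : ℝ) + 1) ^ (1 + ε)) := by
      rw [div_le_div_iff₀ (by positivity) (by positivity)]
      have h2 : (r : ℝ) ^ 2 ≤ (q : ℝ) ^ 2 := pow_le_pow_left₀ hrR.le hrqR 2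
      have h3 : c * ((k : ℝ) + 1) ^ (1 + ε) ≤ c1 * Real.log q ^ (1 + ε) := by
        calc c * ((k : ℝ) + 1) ^ (1 + ε) =
              c * ((k : ℝ) + 1) ^ (1 + ε) * ((2 / Real.log 2) ^ (1 + ε) *
                (Real.log 2 / 2) ^ (1 + ε)) := by rw [hinv, mul_one]
          _ = c1 * (((k : ℝ) + 1) ^ (1 + ε) * (Real.log 2 / 2) ^ (1 + ε)) := by
              rw [hc1]
              ring
          _ ≤ c1 * Real.log q ^ (1 + ε) := by
              rw [← hpw]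
              exact mul_le_mul_of_nonneg_left hlog hc10.le
      calc c * ((r : ℝ) ^ 2 * ((k : ℝ) + 1) ^ (1 + ε)) =
            (r : ℝ) ^ 2 * (c * ((k : ℝ) + 1) ^ (1 + ε)) := by ring
        _ ≤ (q : ℝ) ^ 2 * (c1 * Real.log q ^ (1 + ε)) :=
            mul_le_mul h2 h3 (by positivity) (by positivity)
        _ = _ := by ring
    have h2 : (r : ℝ) * b1 * |((a : ℝ) + θ) / b - (p : ℝ) / q| ≤
        r * b1 * (c1 / ((r : ℝ) ^ 2 * ((k : ℝ) + 1) ^ (1 + ε))) :=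
      mul_le_mul_of_nonneg_left (hle.trans h1) (by positivity)
    refine h2.trans ?_
    have h3 : (r : ℝ) * b1 * (c1 / ((r : ℝ) ^ 2 * ((k : ℝ) + 1) ^ (1 + ε))) =
        c1 * b1 / (g * ((k : ℝ) + 1) ^ (1 + ε)) / q1 := by
      rw [← hqe']
      field_simp
    rw [h3]
    apply div_le_div_of_nonneg_left (by positivity) (by positivity)
    exact_mod_cast hk1

end Pool.Agent.Q270.LA
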