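import Pool.Agent.Q270.LA.F

/-!
# The number of bad translates of one number
-/

set_option autoImplicit false

namespace Pool.Agent.Q270.LA

open Finset

theorem sum_inv_sq (H : ℕ) : ∑ g ∈ Icc 1 H, 1 / (g : ℝ) ^ 2 ≤ 2 := by
  have h : ∀ H : ℕ, ∑ g ∈ Icc 1 (H + 1), 1 / (g : ℝ) ^ 2 ≤ 2 - 1 / ((H : ℝ) + 1) := by
    intro H
    induction H with
    | zero => norm_num
    | succ H ih =>
      rw [Finset.sum_Icc_succ_top (by omega)]
      have h1 : 1 / (((H + 1 + 1 : ℕ) : ℝ)) ^ 2 ≤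
          1 / ((H : ℝ) + 1) - 1 / (((H + 1 : ℕ) : ℝ) + 1) := by
        push_cast
        rw [div_sub_div _ _ (by positivity) (by positivity), div_le_div_iff₀ (by positivity)
          (by positivity)]
        have : (0 : ℝ) ≤ H := Nat.cast_nonneg H
        nlinarith
      linarith
  rcases H with _ | H
  · simp
  · refine (h H).trans ?_
    have : 0 < 1 / ((H : ℝ) + 1) := by positivity
    linarith

theorem tail_summable (ε : ℝ) (hε : 0 < ε) :
    Summable (fun k : ℕ => 1 / ((k : ℝ) + 1) ^ (1 + ε)) := by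
  have h1 := (Real.summable_nat_rpow_inv (p := 1 + ε)).mpr (by linarith)
  have h2 := (summable_nat_add_iff 1).mpr h1
  refine h2.congr fun k => ?_
  push_cast
  rw [one_div]

/-- **the count for one number** -/
theorem perTheta (κ ε δ c : ℝ) (hε : 0 < ε) (hδ : 0 < δ) (hδ1 : 16 * δ ≤ 1)
    (hc : 0 < c) (hc1 : c * (2 / Real.log 2) ^ (1 + ε) ≤ 1) (H : ℕ) (hH : 1 ≤ H) (θ : ℝ)
    (hnon : ∀ k : ℕ, (2 : ℝ) ^ k ≤ (H : ℝ) ^ (κ - 1 + δ) → ∀ q : ℕ, 2 ^ k ≤ q → q < 2 * 2 ^ k →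
      ∀ m : ℤ, 2 * (H : ℝ) ^ (2 * δ - 1) / 2 ^ k < |(q : ℝ) * θ - m|)
    (B : Finset (ℕ × ℤ)) (hB : ∀ x ∈ B, 1 ≤ x.1 ∧ x.1 ≤ H ∧ x.2 ∈ Icc (-(H : ℤ)) H ∧
      ∃ (p : ℤ) (q : ℕ), 2 ≤ q ∧ (q : ℝ) ≤ (H : ℝ) ^ κ ∧
      |((x.2 : ℝ) + θ) / x.1 - (p : ℝ) / q| ≤ c / ((q : ℝ) ^ 2 * Real.log q ^ (1 + ε))) :
    (B.card : ℝ) ≤ 64 * (c * (2 / Real.log 2) ^ (1 + ε)) *
      (∑' k : ℕ, 1 / ((k : ℝ) + 1) ^ (1 + ε)) * (H : ℝ) ^ 2 +
      8 * H * (H : ℝ) ^ (1 - δ) * (Nat.log 2 ⌊(H : ℝ) ^ κ⌋₊ + 1) * (1 + Real.log H) := by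
  classical
  have hHR : (1 : ℝ) ≤ H := by exact_mod_cast hH
  have hH0 : (0 : ℝ) < H := by linarith
  have hlog2 : 0 < Real.log 2 := Real.log_pos (by norm_num)
  set c1 : ℝ := c * (2 / Real.log 2) ^ (1 + ε) with hc1def
  have hc10 : 0 < c1 := by rw [hc1def]; positivity
  set Z1 : ℝ := ∑' k : ℕ, 1 / ((k : ℝ) + 1) ^ (1 + ε) with hZ1
  set J : ℕ := Nat.log 2 ⌊(H : ℝ) ^ κ⌋₊ with hJ
  set X : ℕ → ℕ → ℕ → ℝ := fun g b' k => c1 * b' / (g * ((k : ℝ) + 1) ^ (1 + ε)) with hX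
  have hX0 : ∀ g b' k, 0 ≤ X g b' k := fun g b' k => by simp only [hX]; positivity
  set A : ℕ → ℕ → ℕ → Finset (ℕ × ℤ) := fun g b' k =>
    ((Ico (2 ^ k) (2 * 2 ^ k)) ×ˢ (Icc (-⌈2 * (2 : ℝ) ^ k * |θ| + X g b' k / 2 ^ k⌉)
      ⌈2 * (2 : ℝ) ^ k * |θ| + X g b' k / 2 ^ k⌉)).filter (fun z => IsCoprime (z.1 : ℤ) z.2 ∧
        IsCoprime (z.1 : ℤ) b' ∧ |(z.1 : ℝ) * θ - z.2| ≤ X g b' k / 2 ^ k) with hA
  set P : Finset (ℕ × ℕ) := (Icc 1 H ×ˢ Icc 1 H).filter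
    (fun x => x.1 * x.2 ≤ H ∧ (x.1 : ℝ) ≤ (H : ℝ) ^ (1 - δ)) with hP
  -- the covering
  have hsub : B ⊆ P.biUnion (fun x => (range (J + 1)).biUnion (fun k =>
      (A x.1 x.2 k).biUnion (fun z => ((Icc (-(H : ℤ)) H).filter
        (fun a => ((x.2 : ℕ) : ℤ) ∣ (z.1 : ℤ) * a + z.2)).image (fun a => (x.1 * x.2, a))))) := by
    intro x hx
    obtain ⟨hx1, hx2, hx3, hbad⟩ := hB x hx
    obtain ⟨g, b', k, q', m, hgb, hk1, hk2, hQ, hco1, hco2, hdvd, hsmall⟩ :=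
      cover θ c ε ((H : ℝ) ^ κ) hc hε x.2 x.1 hx1 hbad
    have hg0 : 0 < g := by
      rcases Nat.eq_zero_or_pos g with h | h
      · rw [h, zero_mul] at hgb
        omega
      · exact h
    have hb0 : 0 < b' := by
      rcases Nat.eq_zero_or_pos b' with h | h
      · rw [h, mul_zero] at hgb
        omega
      · exact h
    have hgR : (0 : ℝ) < g := by exact_mod_cast hg0
    have hgR1 : (1 : ℝ) ≤ g := by exact_mod_cast hg0
    have hbR : (0 : ℝ) < b' := by exact_mod_cast hb0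
    have hgH : g ≤ H := by
      have : g ≤ g * b' := Nat.le_mul_of_pos_right g hb0
      omega
    have hbH : b' ≤ H := by
      have : b' ≤ g * b' := Nat.le_mul_of_pos_left b' hg0
      omega
    have h2k : (0 : ℝ) < 2 ^ k := by positivity
    have hk1R : (2 : ℝ) ^ k ≤ q' := by exact_mod_cast hk1
    have hk2R : (q' : ℝ) ≤ 2 * 2 ^ k := by exact_mod_cast hk2.le
    have hq'0 : (0 : ℝ) < q' := lt_of_lt_of_le h2k hk1R
    -- the bound for the common divisor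
    have hgle : (g : ℝ) ≤ (H : ℝ) ^ (1 - δ) := by
      by_contra hlt
      push Not at hlt
      have hT0 : 0 < (H : ℝ) ^ (1 - δ) := by positivity
      have h1 : (2 : ℝ) ^ k ≤ (H : ℝ) ^ (κ - 1 + δ) := by
        have h2 : (H : ℝ) ^ (1 - δ) * 2 ^ k ≤ (H : ℝ) ^ κ :=
          (mul_le_mul hlt.le hk1R h2k.le hgR.le).trans hQ
        have h3 : (H : ℝ) ^ κ = (H : ℝ) ^ (1 - δ) * (H : ℝ) ^ (κ - 1 + δ) := by
          rw [← Real.rpow_add hH0]
          congr 1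
          ring
        rw [h3] at h2
        exact le_of_mul_le_mul_left h2 hT0
      have h2 := hnon k h1 q' hk1 hk2 m
      have h3 : X g b' k ≤ 2 * (H : ℝ) ^ (2 * δ - 1) := by
        simp only [hX]
        have h4 : 1 ≤ ((k : ℝ) + 1) ^ (1 + ε) :=
          Real.one_le_rpow (by have : (0 : ℝ) ≤ k := Nat.cast_nonneg k; linarith) (by linarith)
        have h5 : (b' : ℝ) ≤ H / g := by
          rw [le_div_iff₀ hgR, mul_comm]
          have : ((g * b' : ℕ) : ℝ) ≤ H := by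
            rw [hgb]
            exact_mod_cast hx2
          push_cast at this
          exact this
        have h6 : c1 * b' / (g * ((k : ℝ) + 1) ^ (1 + ε)) ≤ (H / g) / g := by
          rw [div_le_div_iff₀ (by positivity) hgR]
          have h7 : c1 * b' ≤ H / g := by nlinarith
          have h8 : (g : ℝ) * 1 ≤ g * ((k : ℝ) + 1) ^ (1 + ε) :=
            mul_le_mul_of_nonneg_left h4 hgR.le
          calc c1 * b' * g ≤ H / g * g := mul_le_mul_of_nonneg_right h7 hgR.le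
            _ ≤ H / g * (g * ((k : ℝ) + 1) ^ (1 + ε)) :=
              mul_le_mul_of_nonneg_left (by linarith) (by positivity)
        have h7 : (H : ℝ) / g / g ≤ (H : ℝ) ^ (2 * δ - 1) := by
          rw [div_div, div_le_iff₀ (by positivity)]
          have h8 : (H : ℝ) = (H : ℝ) ^ (2 * δ - 1) * ((H : ℝ) ^ (1 - δ) * (H : ℝ) ^ (1 - δ)) := by
            rw [← Real.rpow_add hH0, ← Real.rpow_add hH0]
            rw [show 2 * δ - 1 + (1 - δ + (1 - δ)) = 1 by ring, Real.rpow_one]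
          calc (H : ℝ) = (H : ℝ) ^ (2 * δ - 1) * ((H : ℝ) ^ (1 - δ) * (H : ℝ) ^ (1 - δ)) := h8
            _ ≤ (H : ℝ) ^ (2 * δ - 1) * ((g : ℝ) * g) := by
              refine mul_le_mul_of_nonneg_left ?_ (by positivity)
              exact mul_le_mul hlt.le hlt.le hT0.le hgR.le
        have h8 : 0 < (H : ℝ) ^ (2 * δ - 1) := by positivity
        linarith
      have h4 : |(q' : ℝ) * θ - m| ≤ 2 * (H : ℝ) ^ (2 * δ - 1) / 2 ^ k :=
        hsmall.trans (div_le_div_of_nonneg_right h3 h2k.le)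
      linarith
    rw [mem_biUnion]
    refine ⟨(g, b'), ?_, ?_⟩
    · rw [hP, mem_filter, mem_product, mem_Icc, mem_Icc]
      exact ⟨⟨⟨hg0, hgH⟩, hb0, hbH⟩, by rw [hgb]; exact hx2, hgle⟩
    · rw [mem_biUnion]
      refine ⟨k, ?_, ?_⟩
      · rw [mem_range, Nat.lt_succ_iff, hJ]
        apply Nat.le_log_of_pow_le (by norm_num)
        apply Nat.le_floor
        push_cast
        calc (2 : ℝ) ^ k ≤ q' := hk1R
          _ = 1 * q' := (one_mul _).symm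
          _ ≤ g * q' := mul_le_mul_of_nonneg_right hgR1 hq'0.le
          _ ≤ _ := hQ
      · rw [mem_biUnion]
        refine ⟨(q', m), ?_, ?_⟩
        · simp only [hA]
          rw [mem_filter, mem_product, mem_Ico, mem_Icc]
          refine ⟨⟨⟨hk1, hk2⟩, ?_⟩, hco2, hco1, hsmall⟩
          have h1 : |(m : ℝ)| ≤ 2 * (2 : ℝ) ^ k * |θ| + X g b' k / 2 ^ k := by
            have h2 : (m : ℝ) = q' * θ - (q' * θ - m) := by ring
            rw [h2]
            refine (abs_sub _ _).trans ?_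
            rw [abs_mul, Nat.abs_cast]
            exact add_le_add (mul_le_mul_of_nonneg_right hk2R (abs_nonneg θ)) hsmall
          have h2 : |m| ≤ ⌈2 * (2 : ℝ) ^ k * |θ| + X g b' k / 2 ^ k⌉ := by
            have h3 : (|m| : ℝ) ≤ ((⌈2 * (2 : ℝ) ^ k * |θ| + X g b' k / 2 ^ k⌉ : ℤ) : ℝ) :=
              h1.trans (Int.le_ceil _)
            exact_mod_cast h3
          exact abs_le.mp h2
        · rw [mem_image]
          refine ⟨x.2, ?_, ?_⟩
          · rw [mem_filter]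
            exact ⟨hx3, hdvd⟩
          · simp only [hgb]
  -- the count
  have hcard : (B.card : ℝ) ≤ ∑ x ∈ P, ∑ k ∈ range (J + 1),
      (8 * X x.1 x.2 k + 2) * (4 * H / x.2) := by
    have h1 : B.card ≤ ∑ x ∈ P, ∑ k ∈ range (J + 1), ∑ z ∈ A x.1 x.2 k,
        ((Icc (-(H : ℤ)) H).filter (fun a => ((x.2 : ℕ) : ℤ) ∣ (z.1 : ℤ) * a + z.2)).card := by
      refine (Finset.card_le_card hsub).trans (Finset.card_biUnion_le.trans ?_)
      refine Finset.sum_le_sum fun x _ => Finset.card_biUnion_le.trans ?_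
      refine Finset.sum_le_sum fun k _ => Finset.card_biUnion_le.trans ?_
      exact Finset.sum_le_sum fun z _ => Finset.card_image_le
    have h2 : (B.card : ℝ) ≤ ((∑ x ∈ P, ∑ k ∈ range (J + 1), ∑ z ∈ A x.1 x.2 k,
        ((Icc (-(H : ℤ)) H).filter (fun a => ((x.2 : ℕ) : ℤ) ∣ (z.1 : ℤ) * a + z.2)).card : ℕ) : ℝ) := by
      exact_mod_cast h1
    refine h2.trans ?_
    push_cast
    refine Finset.sum_le_sum fun x hx => Finset.sum_le_sum fun k _ => ?_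
    rw [hP, mem_filter, mem_product, mem_Icc, mem_Icc] at hx
    obtain ⟨⟨⟨hx1, hx2⟩, hx3, hx4⟩, hx5, hx6⟩ := hx
    have hx3R : (0 : ℝ) < x.2 := by exact_mod_cast hx3
    have h3 : ∀ z ∈ A x.1 x.2 k, (((Icc (-(H : ℤ)) H).filter
        (fun a => ((x.2 : ℕ) : ℤ) ∣ (z.1 : ℤ) * a + z.2)).card : ℝ) ≤ 4 * H / x.2 := by
      intro z hz
      simp only [hA] at hz
      exact residues H x.2 z.1 hx3 hx4 z.2 (mem_filter.mp hz).2.2.1
    refine (Finset.sum_le_sum h3).trans ?_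
    rw [Finset.sum_const, nsmul_eq_mul]
    refine mul_le_mul_of_nonneg_right ?_ (by positivity)
    apply prim θ (X x.1 x.2 k) (hX0 _ _ _) k
    intro z hz
    simp only [hA] at hz
    rw [mem_filter, mem_product, mem_Ico] at hz
    exact ⟨hz.1.1.1, hz.1.1.2, hz.2.1, hz.2.2.2⟩
  -- the sums
  have hsplit : ∀ x ∈ P, ∀ k ∈ range (J + 1), (8 * X x.1 x.2 k + 2) * (4 * H / x.2) =
      32 * c1 * H * (1 / (x.1 : ℝ)) * (1 / ((k : ℝ) + 1) ^ (1 + ε)) + 8 * H * (1 / (x.2 : ℝ)) := by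
    intro x hx k _
    rw [hP, mem_filter, mem_product, mem_Icc, mem_Icc] at hx
    obtain ⟨⟨⟨hx1, hx2⟩, hx3, hx4⟩, hx5, hx6⟩ := hx
    have hx3R : (0 : ℝ) < x.2 := by exact_mod_cast hx3
    have hx1R : (0 : ℝ) < x.1 := by exact_mod_cast hx1
    have h1 : 0 < ((k : ℝ) + 1) ^ (1 + ε) := by positivity
    simp only [hX]
    field_simp
    ring
  have hk : ∀ x ∈ P, ∑ k ∈ range (J + 1), (8 * X x.1 x.2 k + 2) * (4 * H / x.2) ≤
      32 * c1 * H * Z1 * (1 / (x.1 : ℝ)) + 8 * H * ((J : ℝ) + 1) * (1 / (x.2 : ℝ)) := by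
    intro x hx
    rw [Finset.sum_congr rfl (hsplit x hx), Finset.sum_add_distrib, ← Finset.mul_sum,
      Finset.sum_const, card_range, nsmul_eq_mul]
    have h1 : ∑ k ∈ range (J + 1), 1 / ((k : ℝ) + 1) ^ (1 + ε) ≤ Z1 :=
      (tail_summable ε hε).sum_le_tsum _ fun k _ => by positivity
    have h2 := mul_le_mul_of_nonneg_left h1 (by positivity : 0 ≤ 32 * c1 * H * (1 / (x.1 : ℝ)))
    push_cast
    calc 32 * c1 * H * (1 / (x.1 : ℝ)) * (∑ k ∈ range (J + 1), 1 / ((k : ℝ) + 1) ^ (1 + ε)) +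
          ((J : ℝ) + 1) * (8 * H * (1 / (x.2 : ℝ))) ≤
          32 * c1 * H * (1 / (x.1 : ℝ)) * Z1 + ((J : ℝ) + 1) * (8 * H * (1 / (x.2 : ℝ))) := by
          linarith
      _ = _ := by ring
  have hZ10 : 0 ≤ Z1 := tsum_nonneg fun k => by positivity
  have hs1 : ∑ x ∈ P, 1 / (x.1 : ℝ) ≤ 2 * H := by
    have h1 : ∑ x ∈ P, 1 / (x.1 : ℝ) ≤
        ∑ x ∈ (Icc 1 H ×ˢ Icc 1 H).filter (fun x => x.1 * x.2 ≤ H), 1 / (x.1 : ℝ) := by
      apply Finset.sum_le_sum_of_subset_of_nonneg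
      · intro x hx
        rw [hP, mem_filter] at hx
        rw [mem_filter]
        exact ⟨hx.1, hx.2.1⟩
      · intro x _ _
        positivity
    refine h1.trans ?_
    rw [Finset.sum_filter, Finset.sum_product]
    have h2 : ∀ g ∈ Icc 1 H, (∑ b' ∈ Icc 1 H, if g * b' ≤ H then 1 / (g : ℝ) else 0) ≤
        H * (1 / (g : ℝ) ^ 2) := by
      intro g hg
      rw [mem_Icc] at hg
      have hgR : (0 : ℝ) < g := by exact_mod_cast hg.1
      rw [← Finset.sum_filter, Finset.sum_const, nsmul_eq_mul]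
      have h3 : ((Icc 1 H).filter (fun b' => g * b' ≤ H)).card ≤ H / g := by
        have : (Icc 1 H).filter (fun b' => g * b' ≤ H) ⊆ Icc 1 (H / g) := by
          intro b' hb'
          rw [mem_filter, mem_Icc] at hb'
          rw [mem_Icc]
          refine ⟨hb'.1.1, (Nat.le_div_iff_mul_le hg.1).mpr ?_⟩
          rw [mul_comm]
          exact hb'.2
        have h4 := Finset.card_le_card this
        rwa [Nat.card_Icc, Nat.add_sub_cancel] at h4
      have h4 : (((Icc 1 H).filter (fun b' => g * b' ≤ H)).card : ℝ) ≤ H / g := by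
        have h5 : (((Icc 1 H).filter (fun b' => g * b' ≤ H)).card : ℝ) ≤ ((H / g : ℕ) : ℝ) := by
          exact_mod_cast h3
        exact h5.trans Nat.cast_div_le
      calc (((Icc 1 H).filter (fun b' => g * b' ≤ H)).card : ℝ) * (1 / g) ≤ H / g * (1 / g) :=
            mul_le_mul_of_nonneg_right h4 (by positivity)
        _ = H * (1 / (g : ℝ) ^ 2) := by field_simp
    refine (Finset.sum_le_sum h2).trans ?_
    rw [← Finset.mul_sum]
    calc (H : ℝ) * ∑ g ∈ Icc 1 H, 1 / (g : ℝ) ^ 2 ≤ H * 2 :=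
          mul_le_mul_of_nonneg_left (sum_inv_sq H) hH0.le
      _ = 2 * H := mul_comm _ _
  have hs2 : ∑ x ∈ P, 1 / (x.2 : ℝ) ≤ (H : ℝ) ^ (1 - δ) * (1 + Real.log H) := by
    have h1 : ∑ x ∈ P, 1 / (x.2 : ℝ) ≤
        ∑ x ∈ (Icc 1 ⌊(H : ℝ) ^ (1 - δ)⌋₊ ×ˢ Icc 1 H), 1 / (x.2 : ℝ) := by
      apply Finset.sum_le_sum_of_subset_of_nonneg
      · intro x hx
        rw [hP, mem_filter, mem_product, mem_Icc] at hx
        rw [mem_product, mem_Icc]
        exact ⟨⟨hx.1.1.1, Nat.le_floor hx.2.2⟩, hx.1.2⟩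
      · intro x _ _
        positivity
    refine h1.trans ?_
    rw [Finset.sum_product]
    simp only
    rw [Finset.sum_const, Nat.card_Icc, nsmul_eq_mul, Nat.add_sub_cancel]
    have h3 : (⌊(H : ℝ) ^ (1 - δ)⌋₊ : ℝ) ≤ (H : ℝ) ^ (1 - δ) := Nat.floor_le (by positivity)
    have h4 : ∑ b' ∈ Icc 1 H, 1 / (b' : ℝ) ≤ 1 + Real.log H := by
      have h5 := harmonic_le_one_add_log H
      rw [harmonic_eq_sum_Icc] at h5
      push_cast at h5
      simpa only [one_div] using h5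
    refine mul_le_mul h3 h4 (Finset.sum_nonneg fun _ _ => by positivity) (by positivity)
  refine hcard.trans ((Finset.sum_le_sum hk).trans ?_)
  rw [Finset.sum_add_distrib, ← Finset.mul_sum, ← Finset.mul_sum]
  have h1 := mul_le_mul_of_nonneg_left hs1 (by positivity : 0 ≤ 32 * c1 * H * Z1)
  have h2 := mul_le_mul_of_nonneg_left hs2 (by positivity : 0 ≤ 8 * H * ((J : ℝ) + 1))
  calc 32 * c1 * H * Z1 * ∑ x ∈ P, 1 / (x.1 : ℝ) + 8 * H * ((J : ℝ) + 1) * ∑ x ∈ P, 1 / (x.2 : ℝ)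
      ≤ 32 * c1 * H * Z1 * (2 * H) +
        8 * H * ((J : ℝ) + 1) * ((H : ℝ) ^ (1 - δ) * (1 + Real.log H)) := add_le_add h1 h2
    _ = _ := by ring

end Pool.Agent.Q270.LA
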