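import Pool.Agent.Q270.LA.E1
import Pool.Agent.Q270.LA.G
import Pool.Agent.Q263.JM.Sub

/-!
# Small heights, and the choice of the constant
-/

set_option autoImplicit false

namespace Pool.Agent.Q270.LA

open Finset Filter

/-- finitely many irrational numbers and denominators -/
theorem fin_irr (U : Finset ℝ) (hU : ∀ ξ ∈ U, Irrational ξ) (N : ℕ) (ε : ℝ) (hε : 0 < ε) :
    ∃ c : ℝ, 0 < c ∧ ∀ ξ ∈ U, ∀ (p : ℤ) (q : ℕ), 2 ≤ q → q ≤ N →
      c / ((q : ℝ) ^ 2 * Real.log q ^ (1 + ε)) < |ξ - (p : ℝ) / q| := by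
  classical
  set g : ℝ × ℕ → ℝ := fun z => |(z.2 : ℝ) * z.1 - round ((z.2 : ℝ) * z.1)| / z.2 with hg
  set F : Finset ℝ := insert 1 (((U ×ˢ Icc 2 N).image g).filter (fun x => 0 < x)) with hF
  have hFne : F.Nonempty := Finset.insert_nonempty _ _
  set c0 : ℝ := F.min' hFne with hc0
  have hc0pos : 0 < c0 := by
    have h1 := F.min'_mem hFne
    rw [← hc0, hF, mem_insert, mem_filter] at h1
    rcases h1 with h1 | h1
    · rw [h1]
      exact one_pos
    · exact h1.2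
  have hlog2 : 0 < Real.log 2 := Real.log_pos (by norm_num)
  refine ⟨c0 * Real.log 2 ^ (1 + ε), by positivity, ?_⟩
  intro ξ hξ p q hq2 hqN
  have hq0 : (0 : ℝ) < q := by
    have : 0 < q := by omega
    exact_mod_cast this
  have hq2R : (2 : ℝ) ≤ q := by exact_mod_cast hq2
  have hgpos : 0 < g (ξ, q) := by
    simp only [hg]
    apply div_pos _ hq0
    rw [abs_pos]
    intro h0
    have h1 := (hU ξ hξ).natCast_mul (m := q) (by omega)
    exact h1.ne_int _ (by linarith)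
  have h1 : c0 ≤ g (ξ, q) := by
    apply F.min'_le
    rw [hF, mem_insert, mem_filter, mem_image]
    right
    exact ⟨⟨(ξ, q), mem_product.mpr ⟨hξ, mem_Icc.mpr ⟨hq2, hqN⟩⟩, rfl⟩, hgpos⟩
  have h2 : g (ξ, q) ≤ |ξ - (p : ℝ) / q| := by
    simp only [hg]
    rw [div_le_iff₀ hq0]
    have h3 : |ξ - (p : ℝ) / q| * q = |(q : ℝ) * ξ - p| := by
      have h4 : (q : ℝ) * ξ - p = (ξ - (p : ℝ) / q) * q := by
        rw [sub_mul, div_mul_cancel₀ (p : ℝ) hq0.ne']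
        ring
      rw [h4, abs_mul, abs_of_pos hq0]
    rw [h3]
    exact round_le _ _
  have h3 : c0 * Real.log 2 ^ (1 + ε) / ((q : ℝ) ^ 2 * Real.log q ^ (1 + ε)) < c0 := by
    have h4 : Real.log 2 ≤ Real.log q := Real.log_le_log (by norm_num) hq2R
    have h5 : Real.log 2 ^ (1 + ε) ≤ Real.log q ^ (1 + ε) :=
      Real.rpow_le_rpow hlog2.le h4 (by linarith)
    have h6 : 0 < Real.log 2 ^ (1 + ε) := by positivity
    have h7 : 0 < Real.log q ^ (1 + ε) := lt_of_lt_of_le h6 h5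
    rw [div_lt_iff₀ (by positivity)]
    apply mul_lt_mul_of_pos_left _ hc0pos
    have hq4 : (1 : ℝ) < (q : ℝ) ^ 2 := by nlinarith
    calc Real.log 2 ^ (1 + ε) ≤ Real.log q ^ (1 + ε) := h5
      _ = 1 * Real.log q ^ (1 + ε) := (one_mul _).symm
      _ < (q : ℝ) ^ 2 * Real.log q ^ (1 + ε) := mul_lt_mul_of_pos_right hq4 h7
  linarith

/-- the relation with integer coefficients -/
theorem int_rel {n : ℕ} (ω : Fin n → ℝ)
    (hlin : LinearIndependent ℚ (Fin.cons (1 : ℝ) ω : Fin (n + 1) → ℝ)) :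
    ∀ (c0 : ℤ) (c : Fin n → ℤ), (c0 : ℝ) + ∑ i, (c i : ℝ) * ω i = 0 → c0 = 0 ∧ c = 0 := by
  intro c0 c h
  rw [Fintype.linearIndependent_iff] at hlin
  have h1 := hlin (Fin.cons (c0 : ℚ) (fun i => (c i : ℚ))) (by
    rw [Fin.sum_univ_succ]
    simp only [Fin.cons_zero, Fin.cons_succ]
    rw [← h]
    simp [Rat.smul_def])
  constructor
  · have := h1 0
    simp only [Fin.cons_zero] at this
    exact_mod_cast this
  · ext i
    have := h1 i.succ
    simp only [Fin.cons_succ] at this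
    exact_mod_cast this

/-- the elements are irrational -/
theorem irr_elt {n : ℕ} (ω : Fin n → ℝ)
    (hrel : ∀ (c0 : ℤ) (c : Fin n → ℤ), (c0 : ℝ) + ∑ i, (c i : ℝ) * ω i = 0 → c0 = 0 ∧ c = 0)
    (b : ℕ) (hb : 1 ≤ b) (a : ℤ) (y : Fin n → ℤ) (hy : y ≠ 0) :
    Irrational (((a : ℝ) + ∑ i, (y i : ℝ) * ω i) / b) := by
  have h : Irrational (∑ i, (y i : ℝ) * ω i) := by
    rintro ⟨r, hr⟩
    have hden : (0 : ℝ) < r.den := by exact_mod_cast r.den_pos
    have h1 : (r : ℝ) * r.den = r.num := by exact_mod_cast Rat.mul_den_eq_num r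
    have h2 := hrel (-r.num) (fun i => r.den * y i) (by
      have h3 : ∑ i, (((r.den * y i : ℤ)) : ℝ) * ω i = r.den * ∑ i, (y i : ℝ) * ω i := by
        rw [Finset.mul_sum]
        refine Finset.sum_congr rfl fun i _ => ?_
        push_cast
        ring
      rw [h3, ← hr]
      push_cast
      linarith)
    apply hy
    ext i
    have h3 := congrFun h2.2 i
    simp only [Pi.zero_apply] at h3
    rcases mul_eq_zero.mp h3 with h4 | h4
    · exact absurd (by exact_mod_cast h4) r.den_ne_zero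
    · exact h4
  have h2 : Irrational ((a : ℝ) + ∑ i, (y i : ℝ) * ω i) := h.intCast_add a
  exact h2.div_natCast (by omega)

/-- the exceptional points are few, in both cases -/
theorem few_both (n : ℕ) (hn : 1 ≤ n) (ω : Fin n → ℝ) (halg : ∀ i, IsAlgebraic ℚ (ω i))
    (hrel : ∀ (c0 : ℤ) (c : Fin n → ℤ), (c0 : ℝ) + ∑ i, (c i : ℝ) * ω i = 0 → c0 = 0 ∧ c = 0)
    (κ : ℝ) (hκ1 : 1 ≤ κ) (hκ : n = 1 ∨ κ < n + 1) :
    ∃ δ : ℝ, 0 < δ ∧ 16 * δ ≤ 1 ∧ ∀ η : ℝ, 0 < η →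
    ∀ᶠ H : ℕ in atTop, ∀ S : Finset (Fin n → ℤ), S ⊆ bx n H → (∀ y ∈ S, Exc ω κ δ H y) →
      (S.card : ℝ) ≤ η * (H : ℝ) ^ n := by
  have hsim : ∀ δ : ℝ, 0 < δ → ∃ c : ℝ, 0 < c ∧ ∀ z : ℕ, 1 ≤ z → ∀ P : Fin n → ℤ, ∃ l,
      c ≤ (z : ℝ) ^ (1 / (n : ℝ) + δ) * |(z : ℝ) * ω l - P l| := by
    intro δ hδ
    obtain ⟨c, hc, h⟩ := Pool.Agent.Q263.JM.simul hn ω halg hrel 0 δ hδ
    refine ⟨c, hc, fun z hz P => ?_⟩
    obtain ⟨l, hl⟩ := h z 1 hz le_rfl (by
      intro p hp hp1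
      exact absurd (Nat.dvd_one.mp hp1) hp.one_lt.ne') P
    refine ⟨l, ?_⟩
    simpa using hl
  rcases hκ with h1 | h1
  · subst h1
    refine ⟨1 / 16, by norm_num, by norm_num, fun η hη => ?_⟩
    apply fewE1 ω _ κ (1 / 16) hκ1 (by norm_num) (by norm_num) η hη
    intro τ hτ
    obtain ⟨c, hc, h⟩ := hsim τ hτ
    refine ⟨c, hc, fun q hq p => ?_⟩
    obtain ⟨l, hl⟩ := h q hq (fun _ => p)
    have hl0 : l = 0 := Subsingleton.elim _ _
    rw [hl0] at hl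
    simpa using hl
  · have h0 : 0 < min 1 ((n : ℝ) + 1 - κ) := lt_min one_pos (by linarith)
    refine ⟨min 1 ((n : ℝ) + 1 - κ) / 16, by positivity, ?_, fun η hη => ?_⟩
    · have := min_le_left 1 ((n : ℝ) + 1 - κ)
      linarith
    · apply fewE n hn ω hsim κ _ hκ1 (by positivity) _ _ η hη
      · have := min_le_left 1 ((n : ℝ) + 1 - κ)
        linarith
      · have := min_le_right 1 ((n : ℝ) + 1 - κ)
        linarith

end Pool.Agent.Q270.LA
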